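import Mathlib

/-!
# The number of roots of unity in a number field of degree `n`
-/

set_option autoImplicit false

open NumberField NumberField.Units

namespace Pool.Agent.H26.MV

theorem le_of_totient (n w : ℕ) (hw : w ≠ 0) (h : w.totient ≤ n) : w ≤ (2 * n) ^ (n + 2) := by
  have hn : 1 ≤ n := (Nat.totient_pos.mpr (Nat.pos_of_ne_zero hw)).trans_le h
  have h1 : ∀ p ∈ w.primeFactors, p ^ w.factorization p ≤ 2 * n := by
    intro p hp
    have hpp : p.Prime := Nat.prime_of_mem_primeFactors hp
    have hpos : 0 < w.factorization p :=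
      hpp.factorization_pos_of_dvd hw (Nat.dvd_of_mem_primeFactors hp)
    have h2 : (p ^ w.factorization p).totient ∣ w.totient :=
      Nat.totient_dvd_of_dvd (Nat.ordProj_dvd w p)
    have h3 := Nat.le_of_dvd (Nat.totient_pos.mpr (Nat.pos_of_ne_zero hw)) h2
    rw [Nat.totient_prime_pow hpp hpos] at h3
    have h4 : p ^ w.factorization p = p ^ (w.factorization p - 1) * p := by
      rw [← pow_succ, Nat.sub_add_cancel hpos]
    have h5 : p ≤ 2 * (p - 1) := by
      have := hpp.two_le
      omega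
    calc p ^ w.factorization p = p ^ (w.factorization p - 1) * p := h4
      _ ≤ p ^ (w.factorization p - 1) * (2 * (p - 1)) := Nat.mul_le_mul_left _ h5
      _ = 2 * (p ^ (w.factorization p - 1) * (p - 1)) := by ring
      _ ≤ 2 * n := Nat.mul_le_mul_left _ (h3.trans h)
  have h6 : w.primeFactors ⊆ Finset.range (n + 2) := by
    intro p hp
    have hpp : p.Prime := Nat.prime_of_mem_primeFactors hp
    have h2 : p.totient ∣ w.totient := Nat.totient_dvd_of_dvd (Nat.dvd_of_mem_primeFactors hp)
    have h3 := Nat.le_of_dvd (Nat.totient_pos.mpr (Nat.pos_of_ne_zero hw)) h2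
    rw [Nat.totient_prime hpp] at h3
    rw [Finset.mem_range]
    omega
  have h7 : w.primeFactors.card ≤ n + 2 := by
    simpa using Finset.card_le_card h6
  calc w = ∏ p ∈ w.primeFactors, p ^ w.factorization p := by
        conv_lhs => rw [← Nat.prod_factorization_pow_eq_self hw]
        rfl
    _ ≤ ∏ _p ∈ w.primeFactors, (2 * n) := Finset.prod_le_prod' h1
    _ = (2 * n) ^ w.primeFactors.card := by rw [Finset.prod_const]
    _ ≤ (2 * n) ^ (n + 2) := Nat.pow_le_pow_right (by omega) h7

theorem torsion_bound (n : ℕ) : ∀ (K : Type) [Field K] [NumberField K],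
    Module.finrank ℚ K = n → torsionOrder K ≤ (2 * n) ^ (n + 2) := by
  intro K _ _ hK
  obtain ⟨g, hg⟩ := IsCyclic.exists_generator (α := torsion K)
  have h1 : orderOf g = torsionOrder K := by
    rw [torsionOrder, orderOf_eq_card_of_forall_mem_zpowers hg]
  have h2 : IsPrimitiveRoot g (torsionOrder K) := h1 ▸ IsPrimitiveRoot.orderOf g
  have h3 : IsPrimitiveRoot (((g : (𝓞 K)ˣ) : 𝓞 K) : K) (torsionOrder K) := by
    have h4 : IsPrimitiveRoot ((g : (𝓞 K)ˣ)) (torsionOrder K) :=
      h2.map_of_injective (f := (torsion K).subtype) (Subgroup.subtype_injective _)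
    have h5 : IsPrimitiveRoot (((g : (𝓞 K)ˣ) : 𝓞 K)) (torsionOrder K) :=
      IsPrimitiveRoot.coe_units_iff.mpr h4
    exact h5.map_of_injective (f := algebraMap (𝓞 K) K) RingOfIntegers.coe_injective
  have h0 : torsionOrder K ≠ 0 := torsionOrder_ne_zero K
  refine le_of_totient n _ h0 ?_
  have h6 := h3.totient_le_degree_minpoly
  refine h6.trans ?_
  have hint : IsIntegral ℤ (((g : (𝓞 K)ˣ) : 𝓞 K) : K) := RingOfIntegers.isIntegral_coe _
  have h7 := minpoly.isIntegrallyClosed_eq_field_fractions' ℚ hint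
  have h8 : (minpoly ℤ (((g : (𝓞 K)ˣ) : 𝓞 K) : K)).natDegree =
      (minpoly ℚ (((g : (𝓞 K)ˣ) : 𝓞 K) : K)).natDegree := by
    rw [h7, (minpoly.monic hint).natDegree_map]
  rw [h8, ← hK]
  exact minpoly.natDegree_le _

end Pool.Agent.H26.MV
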