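import Mathlib

/-!
# Blichfeldt's theorem for several cosets
-/

set_option autoImplicit false

open MeasureTheory Set
open scoped ENNReal

namespace Pool.Agent.H26.MV

variable {ι : Type} [Fintype ι]

/-- the cube -/
def cub (m : ι → ℤ) : Set (ι → ℝ) := Set.pi univ fun i => Ioc (m i : ℝ) (m i + 1)

theorem cub_meas (m : ι → ℤ) : MeasurableSet (cub m) :=
  MeasurableSet.univ_pi fun _ => measurableSet_Ioc

theorem cub_vol (m : ι → ℤ) : volume (cub m) = 1 := by
  unfold cub
  rw [Real.volume_pi_Ioc]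
  simp

theorem cub_ex (x : ι → ℝ) : x ∈ cub (fun i => ⌈x i⌉ - 1) := by
  intro i _
  simp only [Int.cast_sub, Int.cast_one, sub_add_cancel, mem_Ioc]
  exact ⟨by linarith [Int.ceil_lt_add_one (x i)], Int.le_ceil _⟩

theorem cub_uniq {x : ι → ℝ} {m n : ι → ℤ} (h1 : x ∈ cub m) (h2 : x ∈ cub n) : m = n := by
  ext i
  obtain ⟨a1, a2⟩ := h1 i (mem_univ i)
  obtain ⟨b1, b2⟩ := h2 i (mem_univ i)
  have h3 : (m i : ℝ) < n i + 1 := by linarith
  have h4 : (n i : ℝ) < m i + 1 := by linarith
  have h5 : m i < n i + 1 := by exact_mod_cast h3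
  have h6 : n i < m i + 1 := by exact_mod_cast h4
  omega

theorem tile (S : Set (ι → ℝ)) (hS : MeasurableSet S) :
    ∫⁻ x in cub (0 : ι → ℤ), ∑' k : ι → ℤ, S.indicator (1 : (ι → ℝ) → ℝ≥0∞)
      (x + fun i => (k i : ℝ)) = volume S := by
  have hm : ∀ k : ι → ℤ, Measurable fun x : ι → ℝ => S.indicator (1 : (ι → ℝ) → ℝ≥0∞)
      (x + fun i => (k i : ℝ)) := fun k =>
    (measurable_one.indicator hS).comp (measurable_id.add_const _)
  rw [lintegral_tsum fun k => (hm k).aemeasurable]
  have h1 : S = ⋃ k : ι → ℤ, S ∩ cub k := by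
    ext x
    simp only [mem_iUnion, mem_inter_iff]
    exact ⟨fun h => ⟨_, h, cub_ex x⟩, fun ⟨_, h, _⟩ => h⟩
  have h2 : volume S = ∑' k : ι → ℤ, volume (S ∩ cub k) := by
    conv_lhs => rw [h1]
    rw [measure_iUnion]
    · intro k l hkl
      rw [Function.onFun, Set.disjoint_left]
      rintro x ⟨_, hx⟩ ⟨_, hy⟩
      exact hkl (cub_uniq hx hy)
    · exact fun k => hS.inter (cub_meas k)
  rw [h2]
  refine tsum_congr fun k => ?_
  rw [← lintegral_indicator (cub_meas 0)]
  have h3 : ∀ x : ι → ℝ, (cub (0 : ι → ℤ)).indicator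
      (fun x => S.indicator (1 : (ι → ℝ) → ℝ≥0∞) (x + fun i => (k i : ℝ))) x =
      (S ∩ cub k).indicator 1 (x + fun i => (k i : ℝ)) := by
    intro x
    have h4 : x ∈ cub (0 : ι → ℤ) ↔ (x + fun i => (k i : ℝ)) ∈ cub k := by
      unfold cub
      simp only [Set.mem_pi, mem_univ, forall_true_left, mem_Ioc, Pi.add_apply, Pi.zero_apply,
        Int.cast_zero]
      refine forall_congr' fun i => ?_
      constructor <;> rintro ⟨a, b⟩ <;> constructor <;> linarith
    by_cases h5 : x ∈ cub (0 : ι → ℤ)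
    · rw [indicator_of_mem h5]
      by_cases h6 : (x + fun i => (k i : ℝ)) ∈ S
      · rw [indicator_of_mem h6, indicator_of_mem (show _ ∈ S ∩ cub k from ⟨h6, h4.mp h5⟩)]
      · rw [indicator_of_notMem h6, indicator_of_notMem (fun h => h6 h.1)]
    · rw [indicator_of_notMem h5, indicator_of_notMem (fun h => h5 (h4.mpr h.2))]
  rw [lintegral_congr h3]
  rw [lintegral_add_right_eq_self (fun y => (S ∩ cub k).indicator (1 : (ι → ℝ) → ℝ≥0∞) y)
    (fun i => (k i : ℝ))]
  exact lintegral_indicator_one (hS.inter (cub_meas k))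

/-- several cosets of the integral lattice have many points in a translate of a set -/
theorem many_points (E : Type) [Fintype E] (S : Set (ι → ℝ)) (hS : MeasurableSet S)
    (hb : Bornology.IsBounded S) (θ : E → ι → ℝ) :
    ∃ (x : ι → ℝ) (T : Finset (E × (ι → ℤ))),
      (∀ p ∈ T, (fun i => x i + p.2 i + θ p.1 i) ∈ S) ∧
      (Fintype.card E : ℝ) * (volume S).toReal ≤ T.card := by
  classical
  haveI : IsProbabilityMeasure ((volume : Measure (ι → ℝ)).restrict (cub (0 : ι → ℤ))) :=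
    ⟨by rw [Measure.restrict_apply_univ, cub_vol]⟩
  have hfin : volume S ≠ ∞ := hb.measure_lt_top.ne
  -- the integral of the counting function
  let N : (ι → ℝ) → ℝ≥0∞ := fun x => ∑ e : E, ∑' k : ι → ℤ,
    S.indicator (1 : (ι → ℝ) → ℝ≥0∞) ((x + fun i => (k i : ℝ)) + θ e)
  have hcong : ∀ e : E, ∀ x : ι → ℝ, (∑' k : ι → ℤ,
      S.indicator (1 : (ι → ℝ) → ℝ≥0∞) ((x + fun i => (k i : ℝ)) + θ e)) =
      ∑' k : ι → ℤ, ((fun y => y + θ e) ⁻¹' S).indicator (1 : (ι → ℝ) → ℝ≥0∞)
        (x + fun i => (k i : ℝ)) := by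
    intro e x
    refine tsum_congr fun k => ?_
    rfl
  have hpre : ∀ e : E, MeasurableSet ((fun y => y + θ e) ⁻¹' S) := fun e =>
    (measurable_id.add_const _) hS
  have hint : ∫⁻ x in cub (0 : ι → ℤ), N x = (Fintype.card E : ℝ≥0∞) * volume S := by
    unfold N
    rw [lintegral_finsetSum]
    · rw [Finset.sum_congr rfl (g := fun _ : E => volume S)]
      · rw [Finset.sum_const, Finset.card_univ, nsmul_eq_mul]
      · intro e _
        rw [lintegral_congr (hcong e), tile _ (hpre e)]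
        exact measure_preimage_add_right volume (θ e) S
    · intro e _
      refine Measurable.ennreal_tsum fun k => ?_
      exact (measurable_one.indicator hS).comp ((measurable_id.add_const _).add_const _)
  obtain ⟨x, hx⟩ := exists_lintegral_le
    (μ := (volume : Measure (ι → ℝ)).restrict (cub (0 : ι → ℤ))) (f := N)
    (by rw [hint]; exact ENNReal.mul_ne_top (ENNReal.natCast_ne_top _) hfin)
  rw [hint] at hx
  -- the points form a finite set
  obtain ⟨M, hM⟩ := hb.exists_norm_le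
  have hbox : ∀ e : E, ∀ k : ι → ℤ, (x + fun i => (k i : ℝ)) + θ e ∈ S → ∀ i,
      k i ∈ Icc ⌈-M - x i - θ e i⌉ ⌊M - x i - θ e i⌋ := by
    intro e k hk i
    have h1 := (norm_le_pi_norm _ i).trans (hM _ hk)
    simp only [Pi.add_apply, Real.norm_eq_abs] at h1
    rw [abs_le] at h1
    exact ⟨Int.ceil_le.mpr (by linarith [h1.1]), Int.le_floor.mpr (by linarith [h1.2])⟩
  let F : E → Finset (ι → ℤ) := fun e =>
    (Fintype.piFinset fun i => Finset.Icc ⌈-M - x i - θ e i⌉ ⌊M - x i - θ e i⌋).filter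
      fun k => (x + fun i => (k i : ℝ)) + θ e ∈ S
  have hF : ∀ e, ∑' k : ι → ℤ, S.indicator (1 : (ι → ℝ) → ℝ≥0∞)
      ((x + fun i => (k i : ℝ)) + θ e) = (F e).card := by
    intro e
    rw [tsum_eq_sum (s := F e)]
    · rw [Finset.sum_congr rfl (g := fun _ => (1 : ℝ≥0∞))]
      · simp
      · intro k hk
        exact indicator_of_mem (Finset.mem_filter.mp hk).2 _
    · intro k hk
      refine indicator_of_notMem (fun h => hk ?_) _
      rw [Finset.mem_filter]
      refine ⟨?_, h⟩
      rw [Fintype.mem_piFinset]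
      intro i
      exact Finset.mem_Icc.mpr (hbox e k h i)
  refine ⟨x, Finset.univ.sigma F |>.image fun p => (p.1, p.2), ?_, ?_⟩
  · intro p hp
    obtain ⟨q, hq, rfl⟩ := Finset.mem_image.mp hp
    rw [Finset.mem_sigma] at hq
    exact (Finset.mem_filter.mp hq.2).2
  · rw [Finset.card_image_of_injective]
    · rw [Finset.card_sigma]
      have h1 : N x = ((∑ e : E, (F e).card : ℕ) : ℝ≥0∞) := by
        unfold N
        rw [Finset.sum_congr rfl fun e _ => hF e]
        push_cast
        rfl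
      rw [h1] at hx
      have h2 := ENNReal.toReal_mono (ENNReal.natCast_ne_top _) hx
      rw [ENNReal.toReal_mul, ENNReal.toReal_natCast, ENNReal.toReal_natCast] at h2
      exact h2
    · rintro ⟨a, b⟩ ⟨c, d⟩ h
      simp only [Prod.mk.injEq] at h
      obtain ⟨rfl, rfl⟩ := h
      rfl

end Pool.Agent.H26.MV
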