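import Mathlib

/-!
# Extension of characters
-/

set_option autoImplicit false

namespace Pool.Agent.H26.MV

/-- homomorphisms to the circle extend along injective homomorphisms -/
theorem extend_additive (R J : Type) [AddCommGroup R] [AddCommGroup J] (j : R →+ J)
    (hj : Function.Injective j) (h : R →+ AddCircle (1 : ℝ)) :
    ∃ χ : J →+ AddCircle (1 : ℝ), ∀ r, χ (j r) = h r := by
  have hinj : Module.Injective ℤ (AddCircle (1 : ℝ)) :=
    (Module.Baer.of_divisible (AddCircle (1 : ℝ))).injective
  obtain ⟨χ, hχ⟩ := hinj.out (j.toIntLinearMap) hj (h.toIntLinearMap)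
  exact ⟨χ.toAddMonoidHom, fun r => hχ r⟩

/-- homomorphisms to the circle extend along injective homomorphisms -/
theorem extend_circle (R J : Type) [CommGroup R] [CommGroup J] (j : R →* J)
    (hj : Function.Injective j) (h : R →* Circle) :
    ∃ χ : J →* Circle, ∀ r, χ (j r) = h r := by
  -- the isomorphism of the circles
  let e : Additive Circle ≃+ AddCircle (1 : ℝ) :=
    { toFun := fun z => (AddCircle.homeomorphCircle (T := (1 : ℝ)) one_ne_zero).symm z.toMul
      invFun := fun t => Additive.ofMul (AddCircle.homeomorphCircle (T := (1 : ℝ)) one_ne_zero t)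
      left_inv := fun z => by simp
      right_inv := fun t => by simp
      map_add' := fun z w => by
        apply (AddCircle.homeomorphCircle (T := (1 : ℝ)) one_ne_zero).injective
        rw [Homeomorph.apply_symm_apply, AddCircle.homeomorphCircle_apply, AddCircle.toCircle_add,
          ← AddCircle.homeomorphCircle_apply one_ne_zero,
          ← AddCircle.homeomorphCircle_apply one_ne_zero]
        simp }
  obtain ⟨χ, hχ⟩ := extend_additive (Additive R) (Additive J) (MonoidHom.toAdditive j) hj
    (e.toAddMonoidHom.comp (MonoidHom.toAdditive h))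
  let F : Additive J →+ Additive Circle := e.symm.toAddMonoidHom.comp χ
  refine ⟨⟨⟨fun x => (F (Additive.ofMul x)).toMul, ?_⟩, ?_⟩, fun r => ?_⟩
  · change (F 0).toMul = 1
    rw [map_zero]; rfl
  · intro x y
    change (F (Additive.ofMul x + Additive.ofMul y)).toMul = _
    rw [map_add]; rfl
  have h1 := hχ (Additive.ofMul r)
  have h2 : e.symm (χ (Additive.ofMul (j r))) = Additive.ofMul (h r) := by
    rw [show χ (Additive.ofMul (j r)) = e (Additive.ofMul (h r)) from h1]
    exact e.symm_apply_apply _
  exact congrArg Additive.toMul h2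

/-- extension of a character from a monoid to a group -/
theorem extend_monoid (M J : Type) [CommMonoid M] [CommGroup J] (i : M →* J) (g : M →* Circle)
    (h : ∀ a b, i a = i b → g a = g b) : ∃ χ : J →* Circle, ∀ a, χ (i a) = g a := by
  let R : Subgroup (J × Circle) :=
    { carrier := {p | ∃ a b : M, p = (i a / i b, g a / g b)}
      mul_mem' := by
        rintro _ _ ⟨a, b, rfl⟩ ⟨a', b', rfl⟩
        refine ⟨a * a', b * b', ?_⟩
        simp only [map_mul, Prod.mk_mul_mk, Prod.mk.injEq]
        constructor <;> · rw [mul_div_mul_comm]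
      one_mem' := ⟨1, 1, by simp; rfl⟩
      inv_mem' := by
        rintro _ ⟨a, b, rfl⟩
        exact ⟨b, a, by simp⟩ }
  have hj : Function.Injective ((MonoidHom.fst J Circle).comp R.subtype) := by
    rw [injective_iff_map_eq_one]
    rintro ⟨p, a, b, rfl⟩ hp
    have h1 : i a / i b = 1 := hp
    have h2 : g a = g b := h a b (div_eq_one.mp h1)
    apply Subtype.ext
    change (i a / i b, g a / g b) = 1
    rw [h1, h2, div_self']
    rfl
  obtain ⟨χ, hχ⟩ := extend_circle R J ((MonoidHom.fst J Circle).comp R.subtype) hj
    ((MonoidHom.snd J Circle).comp R.subtype)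
  refine ⟨χ, fun a => ?_⟩
  have h1 := hχ ⟨(i a / i 1, g a / g 1), a, 1, rfl⟩
  simpa using h1

end Pool.Agent.H26.MV
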