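import Pool.Agent.H26.MV.Nu
import Pool.Agent.H26.MV.Inj

/-!
# Ideal classes contain ideals prime to `f`
-/

set_option autoImplicit false

open NumberField
open scoped nonZeroDivisors

namespace Pool.Agent.H26.MV

variable {K : Type} [Field K] [NumberField K]

omit [NumberField K] in
theorem sup_mul_eq_top {I J f : Ideal (𝓞 K)} (h1 : I ⊔ f = ⊤) (h2 : J ⊔ f = ⊤) :
    I * J ⊔ f = ⊤ := by
  rw [← Ideal.isCoprime_iff_sup_eq] at h1 h2 ⊢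
  exact IsCoprime.mul_left h1 h2

omit [NumberField K] in
theorem sup_mul_left {I J f : Ideal (𝓞 K)} (h : I * J ⊔ f = ⊤) : I ⊔ f = ⊤ := by
  rw [← Ideal.isCoprime_iff_sup_eq] at h ⊢
  exact IsCoprime.of_mul_left_left h

omit [NumberField K] in
theorem sup_mul_right {I J f : Ideal (𝓞 K)} (h : I * J ⊔ f = ⊤) : J ⊔ f = ⊤ := by
  rw [← Ideal.isCoprime_iff_sup_eq] at h ⊢
  exact IsCoprime.of_mul_left_right h

theorem class_prime (f : Ideal (𝓞 K)) (hf : f ≠ ⊥) (C : ClassGroup (𝓞 K)) :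
    ∃ I : (Ideal (𝓞 K))⁰, ClassGroup.mk0 I = C ∧ (I : Ideal (𝓞 K)) ⊔ f = ⊤ := by
  obtain ⟨I0, hI0⟩ := ClassGroup.mk0_surjective C⁻¹
  by_cases hft : f = ⊤
  · obtain ⟨I, hI⟩ := ClassGroup.mk0_surjective C
    exact ⟨I, hI, by rw [hft, sup_top_eq]⟩
  have hne : (I0 : Ideal (𝓞 K)) ≠ 0 := mem_nonZeroDivisors_iff_ne_zero.mp I0.2
  have hf0 : f ≠ 0 := hf
  obtain ⟨a, ha⟩ := IsDedekindDomain.exists_sup_span_eq (I := f * (I0 : Ideal (𝓞 K))) (J := (I0 : Ideal (𝓞 K)))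
    Ideal.mul_le_right (mul_ne_zero hf0 hne)
  have ha0 : a ≠ 0 := by
    rintro rfl
    rw [Ideal.span_singleton_eq_bot.mpr rfl, sup_bot_eq] at ha
    apply hft
    have h1 : f * (I0 : Ideal (𝓞 K)) = 1 * (I0 : Ideal (𝓞 K)) := by rw [one_mul]; exact ha
    have h2 : f = 1 := mul_right_cancel₀ hne h1
    rw [h2, Ideal.one_eq_top]
  have hle : Ideal.span {a} ≤ (I0 : Ideal (𝓞 K)) := by
    rw [← ha]; exact le_sup_right
  obtain ⟨I1, hI1⟩ := Ideal.dvd_iff_le.mpr hle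
  have hsp : Ideal.span {a} ≠ (0 : Ideal (𝓞 K)) := by
    rw [Ideal.zero_eq_bot, Ne, Ideal.span_singleton_eq_bot]; exact ha0
  have hI1ne : I1 ≠ 0 := by
    rintro rfl
    rw [mul_zero] at hI1
    exact hsp hI1
  refine ⟨⟨I1, mem_nonZeroDivisors_iff_ne_zero.mpr hI1ne⟩, ?_, ?_⟩
  · have h1 : ClassGroup.mk0 (⟨Ideal.span {a}, mem_nonZeroDivisors_iff_ne_zero.mpr hsp⟩ :
        (Ideal (𝓞 K))⁰) = 1 := by
      rw [ClassGroup.mk0_eq_one_iff]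
      exact ⟨a, rfl⟩
    have h2 : (⟨Ideal.span {a}, mem_nonZeroDivisors_iff_ne_zero.mpr hsp⟩ : (Ideal (𝓞 K))⁰) =
        I0 * ⟨I1, mem_nonZeroDivisors_iff_ne_zero.mpr hI1ne⟩ := Subtype.ext hI1
    rw [h2, map_mul, hI0] at h1
    rw [inv_mul_eq_one] at h1
    exact h1.symm
  · have h1 : (I0 : Ideal (𝓞 K)) * (f ⊔ I1) = (I0 : Ideal (𝓞 K)) * 1 := by
      rw [Ideal.mul_sup, ← hI1, mul_comm (I0 : Ideal (𝓞 K)) f, ha, mul_one]
    have h2 := mul_left_cancel₀ hne h1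
    rw [sup_comm, ← Ideal.one_eq_top]
    exact h2

end Pool.Agent.H26.MV
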