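import Pool.Agent.H26.MV.Ext

/-!
# The number of Hecke characters
-/

set_option autoImplicit false

open NumberField NumberField.InfinitePlace NumberField.Units
open scoped nonZeroDivisors

namespace Pool.Agent.H26.MV

open Pool.Agent.H23.LB Pool.Agent.H28.RC Pool.Agent.H25.HK

section

variable {K : Type} [Field K] [NumberField K]

open scoped Classical in
/-- the Hecke character -/
noncomputable def psiOf (f : Ideal (𝓞 K)) (χ : (FractionalIdeal (𝓞 K)⁰ K)ˣ →* Circle)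
    (κ : ClassGroup (𝓞 K) →* ℂˣ) (I : Ideal (𝓞 K)) : ℂ :=
  if h : I ∈ (Ideal (𝓞 K))⁰ ∧ I ⊔ f = ⊤ then
    ((χ (FractionalIdeal.mk0 K ⟨I, h.1⟩) : Circle) : ℂ) *
      ((κ (ClassGroup.mk0 ⟨I, h.1⟩) : ℂˣ) : ℂ) else 0

theorem psiOf_eq (f : Ideal (𝓞 K)) (χ : (FractionalIdeal (𝓞 K)⁰ K)ˣ →* Circle)
    (κ : ClassGroup (𝓞 K) →* ℂˣ) (I : Ideal (𝓞 K)) (h1 : I ∈ (Ideal (𝓞 K))⁰)
    (h2 : I ⊔ f = ⊤) : psiOf f χ κ I = ((χ (FractionalIdeal.mk0 K ⟨I, h1⟩) : Circle) : ℂ) *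
      ((κ (ClassGroup.mk0 ⟨I, h1⟩) : ℂˣ) : ℂ) := by
  unfold psiOf
  rw [dif_pos ⟨h1, h2⟩]

theorem psiOf_zero (f : Ideal (𝓞 K)) (χ : (FractionalIdeal (𝓞 K)⁰ K)ˣ →* Circle)
    (κ : ClassGroup (𝓞 K) →* ℂˣ) (I : Ideal (𝓞 K))
    (h : ¬ (I ∈ (Ideal (𝓞 K))⁰ ∧ I ⊔ f = ⊤)) : psiOf f χ κ I = 0 := by
  unfold psiOf
  rw [dif_neg h]

theorem psiOf_mul (f : Ideal (𝓞 K)) (χ : (FractionalIdeal (𝓞 K)⁰ K)ˣ →* Circle)
    (κ : ClassGroup (𝓞 K) →* ℂˣ) (I J : Ideal (𝓞 K)) :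
    psiOf f χ κ (I * J) = psiOf f χ κ I * psiOf f χ κ J := by
  by_cases hI : I ∈ (Ideal (𝓞 K))⁰ ∧ I ⊔ f = ⊤
  · by_cases hJ : J ∈ (Ideal (𝓞 K))⁰ ∧ J ⊔ f = ⊤
    · rw [psiOf_eq f χ κ I hI.1 hI.2, psiOf_eq f χ κ J hJ.1 hJ.2,
        psiOf_eq f χ κ (I * J) (mul_mem hI.1 hJ.1) (sup_mul_eq_top hI.2 hJ.2)]
      have h1 : (⟨I * J, mul_mem hI.1 hJ.1⟩ : (Ideal (𝓞 K))⁰) = ⟨I, hI.1⟩ * ⟨J, hJ.1⟩ := rfl
      rw [h1, map_mul, map_mul, map_mul, map_mul, Units.val_mul, Circle.coe_mul]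
      ring
    · rw [psiOf_zero f χ κ J hJ, mul_zero, psiOf_zero]
      rintro ⟨h1, h2⟩
      refine hJ ⟨?_, sup_mul_right h2⟩
      rw [mem_nonZeroDivisors_iff_ne_zero] at h1 ⊢
      exact right_ne_zero_of_mul h1
  · rw [psiOf_zero f χ κ I hI, zero_mul, psiOf_zero]
    rintro ⟨h1, h2⟩
    refine hI ⟨?_, sup_mul_left h2⟩
    rw [mem_nonZeroDivisors_iff_ne_zero] at h1 ⊢
    exact left_ne_zero_of_mul h1

theorem psiOf_span (f : Ideal (𝓞 K)) (η : (𝓞 K ⧸ f)ˣ →* ℂˣ)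
    (ν : InfinitePlace K → ℝ) (χ : (FractionalIdeal (𝓞 K)⁰ K)ˣ →* Circle)
    (hχ : ∀ a : Mf f, ((χ (FractionalIdeal.mk0 K (spM f a)) : Circle) : ℂ) =
        ((η (resU f a) : ℂˣ) : ℂ) * ph ν (a.1 : K))
    (κ : ClassGroup (𝓞 K) →* ℂˣ) (a : Mf f) :
    psiOf f χ κ (Ideal.span {a.1}) = ((η (resU f a) : ℂˣ) : ℂ) * ph ν (a.1 : K) := by
  rw [psiOf_eq f χ κ _ (span_ne a.1 a.2.1) a.2.2]
  have h1 : ClassGroup.mk0 (⟨Ideal.span {a.1}, span_ne a.1 a.2.1⟩ : (Ideal (𝓞 K))⁰) = 1 := by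
    rw [ClassGroup.mk0_eq_one_iff]
    exact ⟨a.1, rfl⟩
  rw [h1, map_one, Units.val_one, mul_one]
  exact hχ a

/-- the Hecke character -/
noncomputable def hcOf (f : Ideal (𝓞 K)) (η : (𝓞 K ⧸ f)ˣ →* ℂˣ)
    (ν : InfinitePlace K → ℝ) (hν : ∑ v, (v.mult : ℝ) * ν v = 0)
    (χ : (FractionalIdeal (𝓞 K)⁰ K)ˣ →* Circle)
    (hχ : ∀ a : Mf f, ((χ (FractionalIdeal.mk0 K (spM f a)) : Circle) : ℂ) =
        ((η (resU f a) : ℂˣ) : ℂ) * ph ν (a.1 : K))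
    (κ : ClassGroup (𝓞 K) →* ℂˣ) : HC K f where
  ψ := psiOf f χ κ
  S := ∅
  ν := ν
  map_top := by
    have h1 : (⊤ : Ideal (𝓞 K)) ∈ (Ideal (𝓞 K))⁰ := by
      rw [mem_nonZeroDivisors_iff_ne_zero]
      exact top_ne_bot
    rw [psiOf_eq f χ κ ⊤ h1 (top_sup_eq _)]
    have h2 : (⟨⊤, h1⟩ : (Ideal (𝓞 K))⁰) = 1 := Subtype.ext Ideal.one_eq_top.symm
    rw [h2, map_one, map_one, map_one, map_one, Units.val_one, Circle.coe_one, mul_one]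
  map_mul := psiOf_mul f χ κ
  map_bot := psiOf_zero f χ κ ⊥ fun h => (mem_nonZeroDivisors_iff_ne_zero.mp h.1) rfl
  norm_one := by
    intro I hI hIf
    rw [psiOf_eq f χ κ I (mem_nonZeroDivisors_iff_ne_zero.mpr hI) hIf, norm_mul,
      norm_dual, mul_one]
    exact Circle.norm_coe _
  eq_zero := fun I hI => psiOf_zero f χ κ I fun h => hI h.2
  princ := by
    intro a ha haf
    have h1 : Ideal.Quotient.mk f a = 1 := by
      rw [← map_one (Ideal.Quotient.mk f), Ideal.Quotient.eq]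
      exact haf
    have h2 : Ideal.span {a} ⊔ f = ⊤ := sup_of_isUnit f a (by rw [h1]; exact isUnit_one)
    have h3 := psiOf_span f η ν χ hχ κ ⟨a, ha, h2⟩
    have h4 : resU f ⟨a, ha, h2⟩ = 1 := by
      apply Units.ext
      rw [resU_val, Units.val_one]
      exact h1
    rw [h4, map_one, Units.val_one, one_mul] at h3
    rw [h3]
    unfold sg
    rw [Finset.prod_empty, one_mul]
  norm_zero := hν

theorem resU_surj (f : Ideal (𝓞 K)) (hf : f ≠ ⊥) (g : (𝓞 K ⧸ f)ˣ) :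
    ∃ a : Mf f, resU f a = g := by
  obtain ⟨a, ha⟩ := Ideal.Quotient.mk_surjective (g : 𝓞 K ⧸ f)
  obtain ⟨y, hy, hy0⟩ := Submodule.exists_mem_ne_zero_of_ne_bot hf
  have key : ∃ b : 𝓞 K, b ≠ 0 ∧ Ideal.Quotient.mk f b = g := by
    by_cases h : a = 0
    · refine ⟨a + y, ?_, ?_⟩
      · rw [h, zero_add]; exact hy0
      · rw [← ha, Ideal.Quotient.eq]
        have : a + y - a = y := by ring
        rw [this]; exact hy
    · exact ⟨a, h, ha⟩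
  obtain ⟨b, hb0, hb⟩ := key
  refine ⟨⟨b, hb0, sup_of_isUnit f b (by rw [hb]; exact g.isUnit)⟩, ?_⟩
  apply Units.ext
  rw [resU_val]
  exact hb

end

theorem pf_CH : T_CH := by
  intro n R hR
  obtain ⟨c, hc, H⟩ := freq_count n R hR
  refine ⟨c, hc, ?_⟩
  intro K _ _ hK f hf
  classical
  obtain ⟨X, hX1, hX2⟩ := H K hK f hf
  obtain ⟨hfin, hcard⟩ := card_dual0 (ClassGroup (𝓞 K))
  have : Fintype (ClassGroup (𝓞 K) →* ℂˣ) := Fintype.ofFinite _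
  have hext : ∀ p : {p // p ∈ X}, ∃ χ : (FractionalIdeal (𝓞 K)⁰ K)ˣ →* Circle, ∀ a : Mf f,
      ((χ (FractionalIdeal.mk0 K (spM f a)) : Circle) : ℂ) =
        ((p.1.1 (resU f a) : ℂˣ) : ℂ) * ph p.1.2 (a.1 : K) := fun p =>
    ext_ideal f hf p.1.1 p.1.2 (hX1 p.1 p.2).2.2
  choose χ hχ using hext
  let F : {p // p ∈ X} × (ClassGroup (𝓞 K) →* ℂˣ) → HC K f := fun q =>
    hcOf f q.1.1.1 q.1.1.2 (hX1 q.1.1 q.1.2).1 (χ q.1) (hχ q.1) q.2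
  have hinj : Function.Injective F := by
    intro q q' h
    have hψ : psiOf f (χ q.1) q.2 = psiOf f (χ q'.1) q'.2 := congrArg HC.ψ h
    have hν : q.1.1.2 = q'.1.1.2 := congrArg HC.ν h
    have hη : q.1.1.1 = q'.1.1.1 := by
      refine MonoidHom.ext fun g => ?_
      obtain ⟨a, rfl⟩ := resU_surj f hf g
      have h1 := congrFun hψ (Ideal.span {a.1})
      rw [psiOf_span f q.1.1.1 q.1.1.2 (χ q.1) (hχ q.1) q.2 a,
        psiOf_span f q'.1.1.1 q'.1.1.2 (χ q'.1) (hχ q'.1) q'.2 a, hν] at h1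
      exact Units.ext (mul_right_cancel₀ (ph_ne_zero _ _) h1)
    have hp : q.1 = q'.1 := Subtype.ext (Prod.ext hη hν)
    have hκ : q.2 = q'.2 := by
      refine MonoidHom.ext fun C => ?_
      obtain ⟨I, hI1, hI2⟩ := class_prime f hf C
      have h1 := congrFun hψ (I : Ideal (𝓞 K))
      rw [psiOf_eq f (χ q.1) q.2 I I.2 hI2, psiOf_eq f (χ q'.1) q'.2 I I.2 hI2, hp] at h1
      have h2 := mul_left_cancel₀ (Circle.coe_ne_zero _) h1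
      rw [← hI1]
      exact Units.ext h2
    exact Prod.ext hp hκ
  refine ⟨Finset.univ.image F, ?_, ?_⟩
  · intro χ' hχ'
    obtain ⟨q, _, rfl⟩ := Finset.mem_image.mp hχ'
    exact (hX1 q.1.1 q.1.2).2.1
  · rw [Finset.card_image_of_injective _ hinj, Finset.card_univ, Fintype.card_prod,
      Fintype.card_coe, ← Nat.card_eq_fintype_card (α := ClassGroup (𝓞 K) →* ℂˣ), hcard,
      Nat.card_eq_fintype_card]
    push_cast
    have h1 : (classNumber K : ℝ) = (Fintype.card (ClassGroup (𝓞 K)) : ℝ) := rfl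
    rw [h1]
    have h2 : (0 : ℝ) ≤ (Fintype.card (ClassGroup (𝓞 K)) : ℝ) := by positivity
    calc c * ((Fintype.card (ClassGroup (𝓞 K)) : ℝ) * regulator K * Phi K f)
        = (c * (regulator K * Phi K f)) * Fintype.card (ClassGroup (𝓞 K)) := by ring
      _ ≤ X.card * Fintype.card (ClassGroup (𝓞 K)) := mul_le_mul_of_nonneg_right hX2 h2

end Pool.Agent.H26.MV
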