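import Pool.Agent.H26.MV.ExtG
import Pool.Agent.H23.LC.Targets

/-!
# The number of Hecke characters with all infinity types
-/

set_option autoImplicit false

open NumberField NumberField.InfinitePlace NumberField.Units
  NumberField.Units.dirichletUnitTheorem
open scoped nonZeroDivisors

namespace Pool.Agent.H26.MV

open Pool.Agent.H23.LB Pool.Agent.H28.RC Pool.Agent.H25.HK
open Pool.Agent.H23.LC (ag HG box U_CB)

section

variable {K : Type} [Field K] [NumberField K]

theorem ang_base_norm (v : InfinitePlace K) {x : K} (hx : x ≠ 0) :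
    ‖v.embedding x / ((v x : ℝ) : ℂ)‖ = 1 := by
  have h1 : ‖v.embedding x‖ = v x := norm_embedding_eq v x
  have h2 : 0 < v x := by
    have := (v.pos_iff (x := x)).mpr hx
    exact this
  rw [norm_div, h1, Complex.norm_real, Real.norm_eq_abs, abs_of_pos h2, div_self h2.ne']

theorem ang_um (k : InfinitePlace K → ℤ) : UM (ag (K := K) k) := by
  refine ⟨?_, fun x y hx hy => ?_, fun x hx => ?_⟩
  · unfold ag
    refine Finset.prod_eq_one fun v _ => ?_
    rw [map_one, map_one, Complex.ofReal_one, div_one, one_zpow]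
  · unfold ag
    rw [← Finset.prod_mul_distrib]
    refine Finset.prod_congr rfl fun v _ => ?_
    rw [map_mul, map_mul, Complex.ofReal_mul, ← mul_zpow, mul_div_mul_comm]
  · unfold ag
    rw [norm_prod]
    refine Finset.prod_eq_one fun v _ => ?_
    rw [norm_zpow, ang_base_norm v hx, one_zpow]

theorem ph_um (ν : InfinitePlace K → ℝ) : UM (ph (K := K) ν) :=
  ⟨ph_one ν, fun x y hx hy => ph_mul ν x y hx hy, fun x _ => ph_norm ν x⟩

theorem UM.mul' {ω ω' : K → ℂ} (h : UM ω) (h' : UM ω') : UM fun x => ω x * ω' x := by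
  refine ⟨by rw [h.one, h'.one, one_mul], fun x y hx hy => ?_, fun x hx => ?_⟩
  · rw [h.mul x y hx hy, h'.mul x y hx hy]
    ring
  · rw [norm_mul, h.norm x hx, h'.norm x hx, one_mul]

/-- the character of the units -/
noncomputable def umU {ω : K → ℂ} (h : UM ω) : (𝓞 K)ˣ →* ℂˣ where
  toFun u := Units.mk0 (ω (u : K)) (by
    intro h0
    have h1 := h.norm (u : K) (RingOfIntegers.coe_ne_zero_iff.mpr u.ne_zero)
    rw [h0, norm_zero] at h1
    exact zero_ne_one h1)
  map_one' := by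
    apply Units.ext
    have h1 : (((1 : (𝓞 K)ˣ) : 𝓞 K) : K) = 1 := map_one (algebraMap (𝓞 K) K)
    change ω (((1 : (𝓞 K)ˣ) : 𝓞 K) : K) = 1
    rw [h1, h.one]
  map_mul' u v := by
    apply Units.ext
    have h1 : (((u * v : (𝓞 K)ˣ) : 𝓞 K) : K) = (u : K) * (v : K) :=
      map_mul (algebraMap (𝓞 K) K) _ _
    change ω (((u * v : (𝓞 K)ˣ) : 𝓞 K) : K) = ω (u : K) * ω (v : K)
    rw [h1, h.mul _ _ (RingOfIntegers.coe_ne_zero_iff.mpr u.ne_zero)
        (RingOfIntegers.coe_ne_zero_iff.mpr v.ne_zero)]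

theorem umU_val {ω : K → ℂ} (h : UM ω) (u : (𝓞 K)ˣ) : ((umU h u : ℂˣ) : ℂ) = ω (u : K) := rfl

theorem tors_pow {u : (𝓞 K)ˣ} (hu : u ∈ torsion K) : u ^ torsionOrder K = 1 := by
  have h1 : (⟨u, hu⟩ : torsion K) ^ Nat.card (torsion K) = 1 := pow_card_eq_one'
  exact congrArg Subtype.val h1

theorem ang_tors (k : InfinitePlace K → ℤ) (hk : ∀ v, (torsionOrder K : ℤ) ∣ k v)
    {u : (𝓞 K)ˣ} (hu : u ∈ torsion K) : ag k (u : K) = 1 := by
  unfold ag
  refine Finset.prod_eq_one fun v _ => ?_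
  obtain ⟨j, hj⟩ := hk v
  have h0 : (u : K) ^ torsionOrder K = 1 := by
    have h1 := congrArg (fun t : (𝓞 K)ˣ => ((t : 𝓞 K) : K)) (tors_pow hu)
    simpa using h1
  have h2 : v.embedding (u : K) ^ torsionOrder K = 1 := by
    rw [← map_pow v.embedding, h0, map_one]
  have h3 : (v (u : K)) ^ torsionOrder K = 1 := by
    rw [← map_pow v, h0, map_one]
  rw [hj, zpow_mul, zpow_natCast, div_pow, ← Complex.ofReal_pow, h2, h3,
    Complex.ofReal_one, div_one, one_zpow]

open scoped Classical in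
/-- the angles from a vector of natural numbers -/
noncomputable def kOf (N : ℕ) (κ : {v : InfinitePlace K // v.IsComplex} → Fin (N + 1))
    (v : InfinitePlace K) : ℤ :=
  if h : v.IsComplex then (torsionOrder K : ℤ) * ((κ ⟨v, h⟩ : ℕ) : ℤ) else 0

theorem kOf_inj (N : ℕ) : Function.Injective (kOf (K := K) N) := by
  intro κ κ' h
  funext v
  have h1 := congrFun h v.1
  unfold kOf at h1
  rw [dif_pos v.2, dif_pos v.2] at h1
  have h2 : (torsionOrder K : ℤ) ≠ 0 := by
    exact_mod_cast (torsionOrder_ne_zero K)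
  have h3 := mul_left_cancel₀ h2 h1
  exact Fin.ext (by exact_mod_cast h3)

theorem kOf_dvd (N : ℕ) (κ : {v : InfinitePlace K // v.IsComplex} → Fin (N + 1))
    (v : InfinitePlace K) : (torsionOrder K : ℤ) ∣ kOf N κ v := by
  unfold kOf
  split_ifs
  · exact dvd_mul_right _ _
  · exact dvd_zero _

theorem kOf_bound (N : ℕ) (κ : {v : InfinitePlace K // v.IsComplex} → Fin (N + 1))
    (v : InfinitePlace K) : 0 ≤ kOf N κ v ∧ kOf N κ v ≤ torsionOrder K * N := by
  unfold kOf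
  split_ifs with h
  · have h1 : ((κ ⟨v, h⟩ : ℕ) : ℤ) ≤ N := by
      exact_mod_cast Nat.lt_succ_iff.mp (κ ⟨v, h⟩).2
    constructor
    · positivity
    · exact mul_le_mul_of_nonneg_left h1 (by positivity)
  · exact ⟨le_rfl, by positivity⟩

theorem kOf_real (N : ℕ) (κ : {v : InfinitePlace K // v.IsComplex} → Fin (N + 1))
    (v : InfinitePlace K) (hv : v.IsReal) : kOf N κ v = 0 := by
  unfold kOf
  rw [dif_neg (not_isComplex_iff_isReal.mpr hv)]

theorem ang_sub (k k' : InfinitePlace K → ℤ) {x : K} (hx : x ≠ 0) :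
    ag (k - k') x = ag k x / ag k' x := by
  unfold ag
  rw [← Finset.prod_div_distrib]
  refine Finset.prod_congr rfl fun v _ => ?_
  have h1 : v.embedding x / ((v x : ℝ) : ℂ) ≠ 0 := by
    intro h
    have h2 := ang_base_norm v hx
    rw [h, norm_zero] at h2
    exact zero_ne_one h2
  rw [Pi.sub_apply, zpow_sub₀ h1]

open scoped Classical in
theorem freq_k (f : Ideal (𝓞 K)) (hf : f ≠ ⊥) (T : ℝ) (hT : 0 < T) (N : ℕ) :
    ∃ X : Finset (((𝓞 K ⧸ f)ˣ →* ℂˣ) × (InfinitePlace K → ℤ) × (InfinitePlace K → ℝ)),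
      (∀ p ∈ X, (∀ v, v.IsReal → p.2.1 v = 0) ∧ (∀ v, |p.2.1 v| ≤ torsionOrder K * N) ∧
        ∑ v, (v.mult : ℝ) * p.2.2 v = 0 ∧ (∀ v, |p.2.2 v| ≤ T) ∧
        ∀ u : (𝓞 K)ˣ, ((p.1 (mkU f u) : ℂˣ) : ℂ) * (ag p.2.1 (u : K) * ph p.2.2 (u : K)) = 1) ∧
      ((Nat.card (EE f) * (N + 1) ^ nrComplexPlaces K : ℕ) : ℝ) * ((T / (4 * Real.pi)) ^
        Fintype.card {w : InfinitePlace K // w ≠ w₀} * regulator K) ≤ X.card := by
  have : Finite (EE f) := (card_EE f hf).1
  have : Fintype (EE f) := Fintype.ofFinite _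
  let J := EE f × ({v : InfinitePlace K // v.IsComplex} → Fin (N + 1))
  let cc : J → (𝓞 K)ˣ →* ℂˣ := fun j =>
    ((j.1.comp (QuotientGroup.mk' (Tb f))).comp (mkU f)) * umU (ang_um (kOf N j.2))
  have hn : ∀ j u, ‖((cc j u : ℂˣ) : ℂ)‖ = 1 := by
    intro j u
    change ‖((((j.1.comp (QuotientGroup.mk' (Tb f))) (mkU f u) * umU (ang_um (kOf N j.2)) u :
      ℂˣ)) : ℂ)‖ = 1
    rw [Units.val_mul, norm_mul, norm_EE f hf, umU_val,
      (ang_um _).norm _ (RingOfIntegers.coe_ne_zero_iff.mpr u.ne_zero), one_mul]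
  have ht : ∀ j, ∀ u ∈ torsion K, cc j u = 1 := by
    intro j u hu
    change (j.1 (QuotientGroup.mk' (Tb f) (mkU f u)) * umU (ang_um (kOf N j.2)) u : ℂˣ) = 1
    have h1 : QuotientGroup.mk' (Tb f) (mkU f u) = 1 := by
      rw [QuotientGroup.mk'_apply, QuotientGroup.eq_one_iff]
      exact Subgroup.mem_map_of_mem _ hu
    rw [h1, map_one, one_mul]
    ext
    rw [umU_val, ang_tors _ (kOf_dvd N j.2) hu, Units.val_one]
  obtain ⟨j0, X, hX1, hX2⟩ := freq_gen J cc hn ht T hT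
  let F : J × (InfinitePlace K → ℝ) →
      ((𝓞 K ⧸ f)ˣ →* ℂˣ) × (InfinitePlace K → ℤ) × (InfinitePlace K → ℝ) := fun p =>
    ((p.1.1 / j0.1).comp (QuotientGroup.mk' (Tb f)), kOf N p.1.2 - kOf N j0.2, p.2)
  have hinj : Function.Injective F := by
    rintro ⟨⟨e, κ⟩, ν⟩ ⟨⟨e', κ'⟩, ν'⟩ h
    have h1 : (e / j0.1).comp (QuotientGroup.mk' (Tb f)) =
      (e' / j0.1).comp (QuotientGroup.mk' (Tb f)) := congrArg (fun t => t.1) h
    have h2 : kOf N κ - kOf N j0.2 = kOf N κ' - kOf N j0.2 := congrArg (fun t => t.2.1) h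
    have h3 : ν = ν' := congrArg (fun t => t.2.2) h
    have h4 : κ = κ' := kOf_inj N (sub_left_injective h2)
    have h5 : e = e' := by
      refine MonoidHom.ext fun g => ?_
      obtain ⟨g, rfl⟩ := QuotientGroup.mk_surjective g
      have h6 : e (QuotientGroup.mk g) / j0.1 (QuotientGroup.mk g) =
          e' (QuotientGroup.mk g) / j0.1 (QuotientGroup.mk g) := DFunLike.congr_fun h1 g
      rwa [div_left_inj] at h6
    rw [h3, h4, h5]
  refine ⟨X.image F, ?_, ?_⟩
  · intro P hP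
    obtain ⟨p, hp, rfl⟩ := Finset.mem_image.mp hP
    obtain ⟨a1, a2, a3⟩ := hX1 p hp
    refine ⟨fun v hv => ?_, fun v => ?_, a1, a2, fun u => ?_⟩
    · change kOf N p.1.2 v - kOf N j0.2 v = 0
      rw [kOf_real N _ v hv, kOf_real N _ v hv, sub_zero]
    · change |kOf N p.1.2 v - kOf N j0.2 v| ≤ _
      obtain ⟨b1, b2⟩ := kOf_bound N p.1.2 v
      obtain ⟨b3, b4⟩ := kOf_bound N j0.2 v
      rw [abs_le]
      constructor <;> linarith
    · have h1 := a3 u
      rw [← h1, ← mul_assoc]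
      congr 1
      change ((((p.1.1 / j0.1) (QuotientGroup.mk' (Tb f) (mkU f u)) : ℂˣ)) : ℂ) *
        ag (kOf N p.1.2 - kOf N j0.2) (u : K) =
        ((((p.1.1 (QuotientGroup.mk' (Tb f) (mkU f u)) * umU (ang_um (kOf N p.1.2)) u) /
          (j0.1 (QuotientGroup.mk' (Tb f) (mkU f u)) * umU (ang_um (kOf N j0.2)) u) : ℂˣ)) : ℂ)
      rw [ang_sub _ _ (RingOfIntegers.coe_ne_zero_iff.mpr u.ne_zero), MonoidHom.div_apply,
        Units.val_div_eq_div_val, Units.val_div_eq_div_val, Units.val_mul, Units.val_mul,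
        umU_val, umU_val, div_mul_div_comm]
  · rw [Finset.card_image_of_injective _ hinj]
    have h1 : Fintype.card J = Nat.card (EE f) * (N + 1) ^ nrComplexPlaces K := by
      rw [Fintype.card_prod, Fintype.card_fun, Fintype.card_fin, Nat.card_eq_fintype_card]
    rw [← h1]
    exact hX2

end

/-- the number of compatible data -/
theorem count_k (n : ℕ) : ∃ c : ℝ, 0 < c ∧
    ∀ (K : Type) [Field K] [NumberField K], Module.finrank ℚ K = n → ∀ f : Ideal (𝓞 K), f ≠ ⊥ →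
    ∀ T : ℝ, 1 ≤ T →
    ∃ X : Finset (((𝓞 K ⧸ f)ˣ →* ℂˣ) × (InfinitePlace K → ℤ) × (InfinitePlace K → ℝ)),
      (∀ p ∈ X, (∀ v, v.IsReal → p.2.1 v = 0) ∧ (∀ v, |(p.2.1 v : ℝ)| ≤ T) ∧
        ∑ v, (v.mult : ℝ) * p.2.2 v = 0 ∧ (∀ v, |p.2.2 v| ≤ T) ∧
        ∀ u : (𝓞 K)ˣ, ((p.1 (mkU f u) : ℂˣ) : ℂ) * (ag p.2.1 (u : K) * ph p.2.2 (u : K)) = 1) ∧
      c * T ^ (n - 1) * (regulator K * Phi K f) ≤ X.card := by
  classical
  rcases Nat.eq_zero_or_pos n with rfl | hn
  · refine ⟨1, one_pos, fun K _ _ hK => ?_⟩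
    exact absurd hK (Module.finrank_pos (R := ℚ) (M := K)).ne'
  let W : ℝ := ((2 * n : ℕ) : ℝ) ^ (n + 2)
  have hW1 : 1 ≤ W := one_le_pow₀ (by
    have : (1 : ℝ) ≤ ((2 * n : ℕ) : ℝ) := by
      have : 1 ≤ 2 * n := by omega
      exact_mod_cast this
    exact this)
  have hW : 0 < W := lt_of_lt_of_le one_pos hW1
  have h4pi : (1 : ℝ) ≤ 4 * Real.pi := by linarith [Real.pi_gt_three]
  refine ⟨1 / (W * W ^ n * (4 * Real.pi) ^ n), by positivity, ?_⟩
  intro K _ _ hK f hf T hT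
  have hT0 : 0 < T := lt_of_lt_of_le one_pos hT
  have hw0 : 0 < (torsionOrder K : ℝ) := by
    have := torsionOrder_pos K
    exact_mod_cast this
  obtain ⟨X, hX1, hX2⟩ := freq_k f hf T hT0 ⌊T / torsionOrder K⌋₊
  refine ⟨X, fun p hp => ?_, le_trans ?_ hX2⟩
  · obtain ⟨a1, a2, a3, a4, a5⟩ := hX1 p hp
    refine ⟨a1, fun v => ?_, a3, a4, a5⟩
    have h1 := a2 v
    have h2 : |(p.2.1 v : ℝ)| ≤ (torsionOrder K : ℝ) * (⌊T / torsionOrder K⌋₊ : ℝ) := by
      exact_mod_cast h1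
    refine h2.trans ?_
    have h3 : (⌊T / torsionOrder K⌋₊ : ℝ) ≤ T / torsionOrder K :=
      Nat.floor_le (by positivity)
    calc (torsionOrder K : ℝ) * (⌊T / torsionOrder K⌋₊ : ℝ)
        ≤ torsionOrder K * (T / torsionOrder K) := mul_le_mul_of_nonneg_left h3 hw0.le
      _ = T := by field_simp
  · obtain ⟨_, h2⟩ := card_EE f hf
    have hwW : (torsionOrder K : ℝ) ≤ W := by
      have := torsion_bound n K hK
      change (torsionOrder K : ℝ) ≤ ((2 * n : ℕ) : ℝ) ^ (n + 2)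
      exact_mod_cast this
    have h4 : (Phi K f : ℝ) ≤ Nat.card (EE f) * W := by
      have h5 : (Phi K f : ℝ) ≤ Nat.card (EE f) * torsionOrder K := by exact_mod_cast h2
      exact h5.trans (mul_le_mul_of_nonneg_left hwW (Nat.cast_nonneg _))
    have hreg := regulator_pos K
    have hr2 : nrComplexPlaces K ≤ n := by
      have := card_add_two_mul_card_eq_rank K
      rw [hK] at this
      omega
    have hrk : Fintype.card {w : InfinitePlace K // w ≠ w₀} + nrComplexPlaces K = n - 1 := by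
      have h5 := card_add_two_mul_card_eq_rank K
      rw [hK] at h5
      have h6 := card_eq_nrRealPlaces_add_nrComplexPlaces K
      have h7 : Fintype.card {w : InfinitePlace K // w ≠ w₀} + 1 =
          Fintype.card (InfinitePlace K) := by
        rw [Fintype.card_subtype_compl, Fintype.card_subtype_eq]
        exact Nat.sub_add_cancel Fintype.card_pos
      omega
    have hrn : Fintype.card {w : InfinitePlace K // w ≠ w₀} ≤ n := by omega
    have h8 : T / W ≤ (⌊T / torsionOrder K⌋₊ : ℝ) + 1 := by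
      have h9 : T / W ≤ T / torsionOrder K := div_le_div_of_nonneg_left hT0.le hw0 hwW
      exact h9.trans (Nat.lt_floor_add_one _).le
    have h10 : T ^ nrComplexPlaces K / W ^ n ≤
        ((⌊T / torsionOrder K⌋₊ : ℝ) + 1) ^ nrComplexPlaces K := by
      calc T ^ nrComplexPlaces K / W ^ n ≤ T ^ nrComplexPlaces K / W ^ nrComplexPlaces K :=
            div_le_div_of_nonneg_left (by positivity) (by positivity)
              (pow_le_pow_right₀ hW1 hr2)
        _ = (T / W) ^ nrComplexPlaces K := by rw [div_pow]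
        _ ≤ _ := pow_le_pow_left₀ (by positivity) h8 _
    have h11 : T ^ Fintype.card {w : InfinitePlace K // w ≠ w₀} / (4 * Real.pi) ^ n ≤
        (T / (4 * Real.pi)) ^ Fintype.card {w : InfinitePlace K // w ≠ w₀} := by
      rw [div_pow]
      exact div_le_div_of_nonneg_left (by positivity) (by positivity)
        (pow_le_pow_right₀ h4pi hrn)
    push_cast
    calc 1 / (W * W ^ n * (4 * Real.pi) ^ n) * T ^ (n - 1) * (regulator K * Phi K f)
        ≤ 1 / (W * W ^ n * (4 * Real.pi) ^ n) * T ^ (n - 1) *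
          (regulator K * (Nat.card (EE f) * W)) := by gcongr
      _ = (Nat.card (EE f) * (T ^ nrComplexPlaces K / W ^ n)) *
          ((T ^ Fintype.card {w : InfinitePlace K // w ≠ w₀} / (4 * Real.pi) ^ n) *
            regulator K) := by
          rw [← hrk, pow_add]
          field_simp
      _ ≤ (Nat.card (EE f) * ((⌊T / torsionOrder K⌋₊ : ℝ) + 1) ^ nrComplexPlaces K) *
          ((T / (4 * Real.pi)) ^ Fintype.card {w : InfinitePlace K // w ≠ w₀} *
            regulator K) := by gcongr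

end Pool.Agent.H26.MV
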