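import Pool.Agent.H28.RC.Defs

/-!
# Hecke characters modulo an ideal: definitions
-/

set_option autoImplicit false

open NumberField NumberField.InfinitePlace NumberField.Units
  NumberField.Units.dirichletUnitTheorem MeasureTheory Set Filter Complex

namespace Pool.Agent.H26.MV

open Pool.Agent.H28.RC Pool.Agent.H25.HK

/-- A unitary Hecke character modulo `f` which is unramified (spherical) at the complex places:
a completely multiplicative function `ψ` on the ideals, of absolute value one at the nonzero ideals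
prime to `f`, zero at the others, with
`ψ((a)) = ∏_{v ∈ S} sgn_v(a) ∏_v |a|_v^{i m_v ν_v}` for `a ≡ 1 mod f`; `m_v` is `1` for a real
and `2` for a complex place, `|a|_v` is the absolute value of the complex number `σ_v(a)`,
`∑ m_v ν_v = 0`. It may be imprimitive. -/
structure HC (K : Type) [Field K] [NumberField K] (f : Ideal (𝓞 K)) where
  S : Finset (RP K)
  ν : InfinitePlace K → ℝ
  ψ : Ideal (𝓞 K) → ℂ
  sum_ν : ∑ v : InfinitePlace K, (v.mult : ℝ) * ν v = 0
  map_one : ψ ⊤ = 1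
  map_mul : ∀ I J, ψ (I * J) = ψ I * ψ J
  map_bot : ψ ⊥ = 0
  norm_one : ∀ I, I ≠ ⊥ → I ⊔ f = ⊤ → ‖ψ I‖ = 1
  eq_zero : ∀ I, I ⊔ f ≠ ⊤ → ψ I = 0
  princ : ∀ a : 𝓞 K, a ≠ 0 → a - 1 ∈ f → ψ (Ideal.span {a}) =
    sg K S (a : K) * ∏ v : InfinitePlace K, ((v (a : K) : ℝ) : ℂ) ^ (I * ((v.mult * ν v : ℝ) : ℂ))

/-- (CNT) the number of Hecke characters modulo `f` with bounded frequencies. -/
def T_CNT : Prop :=
  ∀ m : ℕ, ∃ c : ℝ, 0 < c ∧ ∀ (K : Type) [Field K] [NumberField K], Module.finrank ℚ K = m →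
    ∀ f : Ideal (𝓞 K), f ≠ ⊥ → ∃ s : Finset (HC K f),
      (∀ χ ∈ s, χ.S = ∅ ∧ ∀ v, |χ.ν v| ≤ 2) ∧
      c * (classNumber K * regulator K * (Nat.card (𝓞 K ⧸ f)ˣ : ℝ)) ≤ s.card

end Pool.Agent.H26.MV
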