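import Pool.Agent.H26.MV.Freq

/-!
# The number of frequencies
-/

set_option autoImplicit false

open NumberField NumberField.InfinitePlace NumberField.Units
  NumberField.Units.dirichletUnitTheorem Complex MeasureTheory

namespace Pool.Agent.H26.MV

open Pool.Agent.H23.LB

theorem card_dual0 (G : Type) [CommGroup G] [Finite G] :
    Finite (G →* ℂˣ) ∧ Nat.card (G →* ℂˣ) = Nat.card G := by
  have hz : NeZero (Monoid.exponent G) := ⟨Monoid.exponent_ne_zero_of_finite⟩
  have h1 : Nat.card (G →* ℂˣ) = Nat.card G :=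
    CommGroup.card_monoidHom_of_hasEnoughRootsOfUnity G ℂ
  refine ⟨Nat.finite_of_card_ne_zero ?_, h1⟩
  rw [h1]
  exact Nat.card_pos.ne'

theorem card_dual (G : Type) [CommGroup G] [Finite G] (T : Subgroup G) :
    Finite (G ⧸ T →* ℂˣ) ∧ Nat.card G = Nat.card (G ⧸ T →* ℂˣ) * Nat.card T := by
  obtain ⟨h1, h2⟩ := card_dual0 (G ⧸ T)
  refine ⟨h1, ?_⟩
  rw [h2]
  exact Subgroup.card_eq_card_quotient_mul_card_subgroup T

section

variable {K : Type} [Field K] [NumberField K]

/-- the image of the roots of unity -/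
noncomputable def Tb (f : Ideal (𝓞 K)) : Subgroup (𝓞 K ⧸ f)ˣ := (torsion K).map (mkU f)

/-- the finite parts which are trivial on the roots of unity -/
abbrev EE (f : Ideal (𝓞 K)) : Type := (𝓞 K ⧸ f)ˣ ⧸ Tb f →* ℂˣ

theorem fin_quot (f : Ideal (𝓞 K)) (hf : f ≠ ⊥) : Finite (𝓞 K ⧸ f) :=
  Ideal.finiteQuotientOfFreeOfNeBot f hf

theorem card_EE (f : Ideal (𝓞 K)) (hf : f ≠ ⊥) :
    Finite (EE f) ∧ Phi K f ≤ Nat.card (EE f) * torsionOrder K := by
  have := fin_quot f hf
  obtain ⟨h1, h2⟩ := card_dual (𝓞 K ⧸ f)ˣ (Tb f)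
  refine ⟨h1, ?_⟩
  unfold Phi
  rw [h2]
  refine Nat.mul_le_mul_left _ ?_
  unfold Tb torsionOrder
  exact Nat.card_le_card_of_surjective _ ((mkU f).subgroupMap_surjective (torsion K))

open scoped Classical in
theorem card_places (n : ℕ) (hn : Module.finrank ℚ K = n) :
    Fintype.card {w : InfinitePlace K // w ≠ w₀} ≤ n := by
  calc Fintype.card {w : InfinitePlace K // w ≠ w₀} ≤ Fintype.card (InfinitePlace K) :=
        Fintype.card_subtype_le _
    _ ≤ Fintype.card (K →+* ℂ) :=
        Fintype.card_le_of_surjective (fun φ : K →+* ℂ => InfinitePlace.mk φ)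
          (fun v => ⟨v.embedding, mk_embedding v⟩)
    _ = n := by rw [Embeddings.card, hn]

theorem norm_EE (f : Ideal (𝓞 K)) (hf : f ≠ ⊥) (η : (𝓞 K ⧸ f)ˣ →* ℂˣ) (g : (𝓞 K ⧸ f)ˣ) :
    ‖((η g : ℂˣ) : ℂ)‖ = 1 := by
  have := fin_quot f hf
  have h1 : (η g) ^ (Nat.card (𝓞 K ⧸ f)ˣ) = 1 := by
    rw [← map_pow, pow_card_eq_one', map_one]
  have h2 : ((η g : ℂˣ) : ℂ) ^ (Nat.card (𝓞 K ⧸ f)ˣ) = 1 := by
    rw [← Units.val_pow_eq_pow_val, h1, Units.val_one]
  exact Complex.norm_eq_one_of_pow_eq_one h2 Nat.card_pos.ne'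

theorem arg_eq {z : ℂ} (hz : ‖z‖ = 1) : cexp ((arg z : ℝ) * I) = z := by
  have := Complex.norm_mul_exp_arg_mul_I z
  rw [hz, Complex.ofReal_one, one_mul] at this
  exact this

open scoped Classical in
theorem freq_points (f : Ideal (𝓞 K)) (hf : f ≠ ⊥) (R : ℝ) (hR : 0 < R) :
    ∃ X : Finset (((𝓞 K ⧸ f)ˣ →* ℂˣ) × (InfinitePlace K → ℝ)),
      (∀ p ∈ X, ∑ v, (v.mult : ℝ) * p.2 v = 0 ∧ (∀ v, |p.2 v| ≤ R) ∧
        ∀ u : (𝓞 K)ˣ, ((p.1 (mkU f u) : ℂˣ) : ℂ) * ph p.2 (u : K) = 1) ∧
      (Nat.card (EE f) : ℝ) * ((R / (4 * Real.pi)) ^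
        Fintype.card {w : InfinitePlace K // w ≠ w₀} * regulator K) ≤ X.card := by
  have : Finite (EE f) := (card_EE f hf).1
  have : Fintype (EE f) := Fintype.ofFinite _
  let ι := {w : InfinitePlace K // w ≠ w₀}
  let u : ι → (𝓞 K)ˣ := fun i => fundSystem K ((equivFinRank K).symm i)
  let val : EE f → ι → ℂ := fun e i => ((e (QuotientGroup.mk (mkU f (u i))) : ℂˣ) : ℂ)
  let θ : EE f → ι → ℝ := fun e i => arg (val e i) / (2 * Real.pi)
  have hval : ∀ e i, ‖val e i‖ = 1 := fun e i =>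
    norm_EE f hf (e.comp (QuotientGroup.mk' (Tb f))) _
  let B : Set (logSpace K) := Set.Icc (0 : logSpace K) fun _ => R / 2
  have hB : IsCompact B := isCompact_Icc
  have hcont : Continuous (PhiL K) := LinearMap.continuous_of_finiteDimensional _
  have hBi : IsCompact ((PhiL K) '' B) := hB.image hcont
  obtain ⟨x, T, hT1, hT2⟩ := many_points (EE f) ((PhiL K) '' B) hBi.isClosed.measurableSet
    hBi.isBounded θ
  rw [vol_image K R hR] at hT2
  rw [← Nat.card_eq_fintype_card] at hT2
  by_cases hne : T = ∅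
  · refine ⟨∅, by simp, ?_⟩
    rw [hne] at hT2
    simpa using hT2
  · obtain ⟨p0, hp0⟩ := Finset.nonempty_of_ne_empty hne
    -- the points of the box
    have hch : ∀ p : EE f × (ι → ℤ), ∃ z : logSpace K, p ∈ T → z ∈ B ∧
        PhiL K z = fun i => x i + p.2 i + θ p.1 i := by
      intro p
      by_cases hp : p ∈ T
      · obtain ⟨z, hz1, hz2⟩ := hT1 p hp
        exact ⟨z, fun _ => ⟨hz1, hz2⟩⟩
      · exact ⟨0, fun h => absurd h hp⟩
    choose Z hZ using hch
    let ηf : EE f × (ι → ℤ) → ((𝓞 K ⧸ f)ˣ →* ℂˣ) := fun p =>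
      ((p.1 / p0.1)⁻¹).comp (QuotientGroup.mk' (Tb f))
    let F : EE f × (ι → ℤ) → ((𝓞 K ⧸ f)ˣ →* ℂˣ) × (InfinitePlace K → ℝ) := fun p =>
      (ηf p, nuOf (Z p - Z p0))
    have hinj : Set.InjOn F T := by
      intro p hp q hq h
      have h1 : ηf p = ηf q := congrArg Prod.fst h
      have h2 : Z p - Z p0 = Z q - Z p0 := nuOf_inj (congrArg Prod.snd h)
      have h3 : Z p = Z q := sub_left_injective h2
      have h4 : p.1 = q.1 := by
        refine MonoidHom.ext fun g => ?_
        obtain ⟨g, rfl⟩ := QuotientGroup.mk_surjective g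
        have h5 : (p.1 (QuotientGroup.mk g) / p0.1 (QuotientGroup.mk g))⁻¹ =
            (q.1 (QuotientGroup.mk g) / p0.1 (QuotientGroup.mk g))⁻¹ := DFunLike.congr_fun h1 g
        have h6 := inv_injective h5
        rwa [div_left_inj] at h6
      have h7 : p.2 = q.2 := by
        ext i
        have a1 := congrFun (hZ p hp).2 i
        have a2 := congrFun (hZ q hq).2 i
        rw [h3] at a1
        rw [a1, h4] at a2
        have a3 : (p.2 i : ℝ) = q.2 i := by linarith
        exact_mod_cast a3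
      exact Prod.ext h4 h7
    refine ⟨T.image F, ?_, ?_⟩
    · intro P hP
      obtain ⟨p, hp, rfl⟩ := Finset.mem_image.mp hP
      refine ⟨nuOf_sum _, ?_, ?_⟩
      · refine nuOf_bound _ R (fun w => ?_) hR.le
        obtain ⟨a1, a2⟩ := (hZ p hp).1
        obtain ⟨b1, b2⟩ := (hZ p0 hp0).1
        have a1 := a1 w
        have a2 := a2 w
        have b1 := b1 w
        have b2 := b2 w
        simp only [Pi.zero_apply] at a1 a2 b1 b2
        rw [Pi.sub_apply, abs_le]
        constructor <;> linarith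
      · intro v
        have hc := compat f (ηf p) (Z p - Z p0) (fun t ht => ?_) (fun i => ?_) v
        · have h1 := congrArg (fun t : ℂˣ => (t : ℂ)) hc
          simp only [Units.val_mul, Units.val_one] at h1
          rw [← h1]
          congr 1
          rw [show (F p).2 = nuOf (Z p - Z p0) from rfl, nuOf_ph]
          rfl
        · -- torsion
          have h1 : QuotientGroup.mk' (Tb f) (mkU f t) = 1 := by
            rw [QuotientGroup.mk'_apply, QuotientGroup.eq_one_iff]
            exact Subgroup.mem_map_of_mem _ ht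
          change ((p.1 / p0.1)⁻¹) (QuotientGroup.mk' (Tb f) (mkU f t)) = 1
          rw [h1, map_one]
        · -- fundamental units
          obtain ⟨j, rfl⟩ := (equivFinRank K).symm.surjective i
          have h1 : PhiL K (Z p - Z p0) j = (p.2 j - p0.2 j : ℝ) + (θ p.1 j - θ p0.1 j) := by
            rw [map_sub, (hZ p hp).2, (hZ p0 hp0).2, Pi.sub_apply]
            ring
          have h2 : PhiL K (Z p - Z p0) j = (2 * Real.pi)⁻¹ *
              ∑ w, (Z p - Z p0) w * logEmbedding K (Additive.ofMul (u j)) w := by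
            unfold PhiL
            rw [LinearMap.smul_apply, Matrix.toLin'_apply, Pi.smul_apply, smul_eq_mul]
            congr 1
            change ∑ w, logEmbedding K (Additive.ofMul (u j)) w * (Z p - Z p0) w = _
            exact Finset.sum_congr rfl fun w _ => mul_comm _ _
          have h3 : (∑ w, (Z p - Z p0) w * logEmbedding K (Additive.ofMul (u j)) w) =
              2 * Real.pi * ((p.2 j - p0.2 j : ℤ) : ℝ) + (arg (val p.1 j) - arg (val p0.1 j)) := by
            rw [h2] at h1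
            have hpi : (2 * Real.pi) ≠ 0 := by positivity
            have h4 : 2 * Real.pi * ((2 * Real.pi)⁻¹ *
              ∑ w, (Z p - Z p0) w * logEmbedding K (Additive.ofMul (u j)) w) = 2 * Real.pi *
              ((p.2 j - p0.2 j : ℝ) + (θ p.1 j - θ p0.1 j)) := by rw [h1]
            rw [← mul_assoc, mul_inv_cancel₀ hpi, one_mul] at h4
            rw [h4]
            push_cast
            change _ = _
            have h5 : 2 * Real.pi * (θ p.1 j - θ p0.1 j) = arg (val p.1 j) - arg (val p0.1 j) := by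
              change 2 * Real.pi * (arg (val p.1 j) / (2 * Real.pi) -
                arg (val p0.1 j) / (2 * Real.pi)) = _
              field_simp
            rw [mul_add, h5]
          have h6 : ((phU (Z p - Z p0) (fundSystem K ((equivFinRank K).symm j)) : ℂˣ) : ℂ) =
              val p.1 j / val p0.1 j := by
            change cexp (((∑ w, (Z p - Z p0) w * logEmbedding K (Additive.ofMul (u j)) w : ℝ) : ℂ)
              * I) = _
            rw [h3]
            have h7 : (((2 * Real.pi * ((p.2 j - p0.2 j : ℤ) : ℝ) +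
                (arg (val p.1 j) - arg (val p0.1 j)) : ℝ) : ℂ) * I) =
                ((p.2 j - p0.2 j : ℤ) : ℂ) * (2 * Real.pi * I) +
                  (((arg (val p.1 j) : ℝ) : ℂ) * I - ((arg (val p0.1 j) : ℝ) : ℂ) * I) := by
              push_cast
              ring
            rw [h7, Complex.exp_add, Complex.exp_int_mul_two_pi_mul_I, one_mul, Complex.exp_sub,
              arg_eq (hval _ _), arg_eq (hval _ _)]
          ext
          rw [Units.val_mul, h6, Units.val_one]
          have h8 : ((ηf p (mkU f (fundSystem K ((equivFinRank K).symm j))) : ℂˣ) : ℂ) =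
              val p0.1 j / val p.1 j := by
            change ((((p.1 / p0.1)⁻¹) (QuotientGroup.mk (mkU f (u j))) : ℂˣ) : ℂ) = _
            rw [MonoidHom.inv_apply, MonoidHom.div_apply, inv_div, Units.val_div_eq_div_val]
          rw [h8]
          have n1 : val p.1 j ≠ 0 := Units.ne_zero _
          have n2 : val p0.1 j ≠ 0 := Units.ne_zero _
          field_simp
    · rw [Finset.card_image_of_injOn hinj]
      exact hT2

end

/-- the number of pairs of a finite part and frequencies which are compatible with the units -/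
theorem freq_count (n : ℕ) (R : ℝ) (hR : 0 < R) : ∃ c : ℝ, 0 < c ∧
    ∀ (K : Type) [Field K] [NumberField K], Module.finrank ℚ K = n → ∀ f : Ideal (𝓞 K), f ≠ ⊥ →
    ∃ X : Finset (((𝓞 K ⧸ f)ˣ →* ℂˣ) × (InfinitePlace K → ℝ)),
      (∀ p ∈ X, ∑ v, (v.mult : ℝ) * p.2 v = 0 ∧ (∀ v, |p.2 v| ≤ R) ∧
        ∀ u : (𝓞 K)ˣ, ((p.1 (mkU f u) : ℂˣ) : ℂ) * ph p.2 (u : K) = 1) ∧
      c * (regulator K * Phi K f) ≤ X.card := by
  classical
  rcases Nat.eq_zero_or_pos n with rfl | hn
  · refine ⟨1, one_pos, fun K _ _ hK => ?_⟩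
    exact absurd hK (Module.finrank_pos (R := ℚ) (M := K)).ne'
  have hC : (0 : ℝ) < ((2 * n : ℕ) : ℝ) ^ (n + 2) := by positivity
  have hb : 0 < min 1 (R / (4 * Real.pi)) := lt_min one_pos (by positivity)
  refine ⟨min 1 (R / (4 * Real.pi)) ^ n / ((2 * n : ℕ) : ℝ) ^ (n + 2), by positivity, ?_⟩
  intro K _ _ hK f hf
  obtain ⟨X, hX1, hX2⟩ := freq_points f hf R hR
  refine ⟨X, hX1, le_trans ?_ hX2⟩
  obtain ⟨_, h2⟩ := card_EE f hf
  have h3 := torsion_bound n K hK
  have h4 : (Phi K f : ℝ) ≤ Nat.card (EE f) * ((2 * n : ℕ) : ℝ) ^ (n + 2) := by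
    have : Phi K f ≤ Nat.card (EE f) * (2 * n) ^ (n + 2) := h2.trans (Nat.mul_le_mul_left _ h3)
    exact_mod_cast this
  have h5 : min 1 (R / (4 * Real.pi)) ^ n ≤
      (R / (4 * Real.pi)) ^ Fintype.card {w : InfinitePlace K // w ≠ w₀} :=
    (pow_le_pow_of_le_one hb.le (min_le_left _ _) (card_places n hK)).trans
      (pow_le_pow_left₀ hb.le (min_le_right _ _) _)
  have hreg := regulator_pos K
  calc min 1 (R / (4 * Real.pi)) ^ n / ((2 * n : ℕ) : ℝ) ^ (n + 2) * (regulator K * Phi K f)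
      ≤ min 1 (R / (4 * Real.pi)) ^ n / ((2 * n : ℕ) : ℝ) ^ (n + 2) *
        (regulator K * (Nat.card (EE f) * ((2 * n : ℕ) : ℝ) ^ (n + 2))) := by gcongr
    _ = Nat.card (EE f) * (min 1 (R / (4 * Real.pi)) ^ n * regulator K) := by
        field_simp
    _ ≤ Nat.card (EE f) * ((R / (4 * Real.pi)) ^
        Fintype.card {w : InfinitePlace K // w ≠ w₀} * regulator K) := by gcongr

end Pool.Agent.H26.MV
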