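import Pool.Agent.H26.MV.Cls
import Pool.Agent.H26.MV.FreqC
import Pool.Agent.H23.LB.Targets

/-!
# Hecke characters with given finite part and frequencies
-/

set_option autoImplicit false

open NumberField NumberField.InfinitePlace NumberField.Units
open scoped nonZeroDivisors

namespace Pool.Agent.H26.MV

open Pool.Agent.H23.LB Pool.Agent.H28.RC Pool.Agent.H25.HK

section

variable {K : Type} [Field K] [NumberField K]

/-- the elements prime to `f` -/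
def Mf (f : Ideal (𝓞 K)) : Submonoid (𝓞 K) where
  carrier := {a | a ≠ 0 ∧ Ideal.span {a} ⊔ f = ⊤}
  mul_mem' := by
    rintro a b ⟨ha, ha'⟩ ⟨hb, hb'⟩
    refine ⟨mul_ne_zero ha hb, ?_⟩
    rw [← Ideal.span_singleton_mul_span_singleton]
    exact sup_mul_eq_top ha' hb'
  one_mem' := ⟨one_ne_zero, by rw [Ideal.span_singleton_one, top_sup_eq]⟩

theorem isUnit_of_sup (f : Ideal (𝓞 K)) (a : 𝓞 K) (h : Ideal.span {a} ⊔ f = ⊤) :
    IsUnit (Ideal.Quotient.mk f a) := by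
  have h1 : (1 : 𝓞 K) ∈ Ideal.span {a} ⊔ f := by rw [h]; trivial
  obtain ⟨x, hx, y, hy, hxy⟩ := Submodule.mem_sup.mp h1
  obtain ⟨b, rfl⟩ := Ideal.mem_span_singleton'.mp hx
  have h2 : Ideal.Quotient.mk f b * Ideal.Quotient.mk f a = 1 := by
    rw [← map_mul, ← map_one (Ideal.Quotient.mk f), Ideal.Quotient.eq]
    have : b * a - 1 = -y := by rw [← hxy]; ring
    rw [this]
    exact neg_mem hy
  exact IsUnit.of_mul_eq_one_right _ h2

theorem sup_of_isUnit (f : Ideal (𝓞 K)) (a : 𝓞 K) (h : IsUnit (Ideal.Quotient.mk f a)) :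
    Ideal.span {a} ⊔ f = ⊤ := by
  obtain ⟨b, hb⟩ := h.exists_left_inv
  obtain ⟨b, rfl⟩ := Ideal.Quotient.mk_surjective b
  rw [← map_mul, ← map_one (Ideal.Quotient.mk f), Ideal.Quotient.eq] at hb
  rw [Ideal.eq_top_iff_one]
  have : (1 : 𝓞 K) = b * a + -(b * a - 1) := by ring
  rw [this]
  exact Submodule.add_mem_sup (Ideal.mem_span_singleton'.mpr ⟨b, rfl⟩) (neg_mem hb)

/-- the residue class -/
noncomputable def resU (f : Ideal (𝓞 K)) : Mf f →* (𝓞 K ⧸ f)ˣ :=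
  IsUnit.liftRight (((Ideal.Quotient.mk f : 𝓞 K →+* 𝓞 K ⧸ f) : 𝓞 K →* 𝓞 K ⧸ f).comp
    (Mf f).subtype) fun a => isUnit_of_sup f a.1 a.2.2

theorem resU_val (f : Ideal (𝓞 K)) (a : Mf f) :
    ((resU f a : (𝓞 K ⧸ f)ˣ) : 𝓞 K ⧸ f) = Ideal.Quotient.mk f a.1 :=
  IsUnit.coe_liftRight _ _ _

theorem span_ne (a : 𝓞 K) (h : a ≠ 0) : Ideal.span {a} ∈ (Ideal (𝓞 K))⁰ := by
  rw [mem_nonZeroDivisors_iff_ne_zero, Ideal.zero_eq_bot, Ne, Ideal.span_singleton_eq_bot]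
  exact h

/-- the principal ideal -/
noncomputable def spM (f : Ideal (𝓞 K)) : Mf f →* (Ideal (𝓞 K))⁰ where
  toFun a := ⟨Ideal.span {a.1}, span_ne a.1 a.2.1⟩
  map_one' := Subtype.ext (by
    change Ideal.span {(1 : 𝓞 K)} = 1
    rw [Ideal.one_eq_top]
    exact Ideal.span_singleton_one)
  map_mul' a b := Subtype.ext (Ideal.span_singleton_mul_span_singleton _ _).symm

/-- the character of the elements prime to `f` -/
noncomputable def gM (f : Ideal (𝓞 K)) (hf : f ≠ ⊥) (η : (𝓞 K ⧸ f)ˣ →* ℂˣ)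
    (ν : InfinitePlace K → ℝ) : Mf f →* Circle where
  toFun a := ⟨(η (resU f a) : ℂˣ) * ph ν (a.1 : K), by
    change _ ∈ Metric.sphere (0 : ℂ) 1
    rw [mem_sphere_zero_iff_norm, norm_mul, norm_EE f hf, ph_norm, one_mul]⟩
  map_one' := by
    apply Subtype.ext
    change ((η (resU f 1) : ℂˣ) : ℂ) * ph ν (((1 : Mf f) : 𝓞 K) : K) = 1
    have h1 : (((1 : Mf f) : 𝓞 K) : K) = 1 := map_one (algebraMap (𝓞 K) K)
    rw [map_one, map_one, Units.val_one, one_mul, h1, ph_one]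
  map_mul' a b := by
    apply Subtype.ext
    change ((η (resU f (a * b)) : ℂˣ) : ℂ) * ph ν (((a * b : Mf f) : 𝓞 K) : K) =
      (((η (resU f a) : ℂˣ) : ℂ) * ph ν (a.1 : K)) * (((η (resU f b) : ℂˣ) : ℂ) * ph ν (b.1 : K))
    have h1 : (((a * b : Mf f) : 𝓞 K) : K) = (a.1 : K) * (b.1 : K) :=
      map_mul (algebraMap (𝓞 K) K) a.1 b.1
    have ha : (a.1 : K) ≠ 0 := RingOfIntegers.coe_ne_zero_iff.mpr a.2.1
    have hb : (b.1 : K) ≠ 0 := RingOfIntegers.coe_ne_zero_iff.mpr b.2.1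
    rw [map_mul, map_mul, Units.val_mul, h1, ph_mul ν _ _ ha hb]
    ring

/-- the extension to the ideals -/
theorem ext_ideal (f : Ideal (𝓞 K)) (hf : f ≠ ⊥) (η : (𝓞 K ⧸ f)ˣ →* ℂˣ)
    (ν : InfinitePlace K → ℝ)
    (h : ∀ u : (𝓞 K)ˣ, ((η (mkU f u) : ℂˣ) : ℂ) * ph ν (u : K) = 1) :
    ∃ χ : (FractionalIdeal (𝓞 K)⁰ K)ˣ →* Circle, ∀ a : Mf f,
      ((χ (FractionalIdeal.mk0 K (spM f a)) : Circle) : ℂ) =
        ((η (resU f a) : ℂˣ) : ℂ) * ph ν (a.1 : K) := by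
  have key : ∀ a b : Mf f, ((FractionalIdeal.mk0 K).comp (spM f)) a =
      ((FractionalIdeal.mk0 K).comp (spM f)) b → gM f hf η ν a = gM f hf η ν b := by
    intro a b hab
    have h1 : (FractionalIdeal.mk0 K (spM f a) : (FractionalIdeal (𝓞 K)⁰ K)ˣ) =
        FractionalIdeal.mk0 K (spM f b) := hab
    have h2 := congrArg (fun t : (FractionalIdeal (𝓞 K)⁰ K)ˣ =>
      (t : FractionalIdeal (𝓞 K)⁰ K)) h1
    simp only [FractionalIdeal.coe_mk0] at h2
    have h3 : Ideal.span {a.1} = Ideal.span {b.1} := FractionalIdeal.coeIdeal_injective h2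
    rw [Ideal.span_singleton_eq_span_singleton] at h3
    obtain ⟨u, hu⟩ := h3
    apply Subtype.ext
    change ((η (resU f a) : ℂˣ) : ℂ) * ph ν (a.1 : K) =
      ((η (resU f b) : ℂˣ) : ℂ) * ph ν (b.1 : K)
    have h4 : resU f b = resU f a * mkU f u := by
      apply Units.ext
      rw [Units.val_mul, resU_val, resU_val, ← hu, map_mul]
      rfl
    have h5 : (b.1 : K) = (a.1 : K) * (u : K) := by
      rw [← hu]
      exact map_mul (algebraMap (𝓞 K) K) _ _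
    have ha : (a.1 : K) ≠ 0 := RingOfIntegers.coe_ne_zero_iff.mpr a.2.1
    have hu0 : (u : K) ≠ 0 := RingOfIntegers.coe_ne_zero_iff.mpr u.ne_zero
    rw [h4, h5, map_mul, Units.val_mul, ph_mul ν _ _ ha hu0]
    have h6 := h u
    linear_combination (-(((η (resU f a) : ℂˣ) : ℂ) * ph ν (a.1 : K))) * h6
  obtain ⟨χ, hχ⟩ := extend_monoid (Mf f) (FractionalIdeal (𝓞 K)⁰ K)ˣ
    ((FractionalIdeal.mk0 K).comp (spM f)) (gM f hf η ν) key
  exact ⟨χ, fun a => congrArg Subtype.val (hχ a)⟩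

theorem norm_dual {G : Type} [CommGroup G] [Finite G] (κ : G →* ℂˣ) (g : G) :
    ‖((κ g : ℂˣ) : ℂ)‖ = 1 := by
  have h1 : (κ g) ^ (Nat.card G) = 1 := by
    rw [← map_pow, pow_card_eq_one', map_one]
  have h2 : ((κ g : ℂˣ) : ℂ) ^ (Nat.card G) = 1 := by
    rw [← Units.val_pow_eq_pow_val, h1, Units.val_one]
  exact Complex.norm_eq_one_of_pow_eq_one h2 Nat.card_pos.ne'

end

end Pool.Agent.H26.MV
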