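import Pool.Agent.H26.MV.FreqC

/-!
# The number of frequencies, general version
-/

set_option autoImplicit false

open NumberField NumberField.InfinitePlace NumberField.Units
  NumberField.Units.dirichletUnitTheorem Complex MeasureTheory

namespace Pool.Agent.H26.MV

open Pool.Agent.H23.LB

section

variable {K : Type} [Field K] [NumberField K]

theorem compatG (c : (𝓞 K)ˣ →* ℂˣ) (z : logSpace K)
    (h1 : ∀ u ∈ torsion K, c u = 1)
    (h2 : ∀ i, c (fundSystem K i) * phU z (fundSystem K i) = 1) (u : (𝓞 K)ˣ) :
    c u * phU z u = 1 := by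
  classical
  let H : (𝓞 K)ˣ →* ℂˣ := c * phU z
  have h3 : Subgroup.closure (Set.range (fundSystem K)) ⊔ torsion K ≤ H.ker := by
    refine sup_le ((Subgroup.closure_le _).mpr ?_) ?_
    · rintro _ ⟨i, rfl⟩
      exact h2 i
    · intro t ht
      rw [MonoidHom.mem_ker]
      change c t * phU z t = 1
      rw [h1 t ht, one_mul]
      ext
      have h4 : logEmbedding K (Additive.ofMul t) = 0 := logEmbedding_eq_zero_iff.mpr ht
      change cexp (((∑ w, z w * logEmbedding K (Additive.ofMul t) w : ℝ) : ℂ) * I) = 1
      rw [h4]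
      simp
  rw [closure_fundSystem_sup_torsion_eq_top] at h3
  exact h3 (Subgroup.mem_top u)

open scoped Classical in
/-- pairs of a character of the units and frequencies: the quotients by a fixed character are
compatible -/
theorem freq_gen (J : Type) [Fintype J] [Nonempty J] (c : J → (𝓞 K)ˣ →* ℂˣ)
    (hn : ∀ j u, ‖((c j u : ℂˣ) : ℂ)‖ = 1) (ht : ∀ j, ∀ u ∈ torsion K, c j u = 1)
    (R : ℝ) (hR : 0 < R) :
    ∃ j0 : J, ∃ X : Finset (J × (InfinitePlace K → ℝ)),
      (∀ p ∈ X, ∑ v, (v.mult : ℝ) * p.2 v = 0 ∧ (∀ v, |p.2 v| ≤ R) ∧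
        ∀ u : (𝓞 K)ˣ, ((c p.1 u / c j0 u : ℂˣ) : ℂ) * ph p.2 (u : K) = 1) ∧
      (Fintype.card J : ℝ) * ((R / (4 * Real.pi)) ^
        Fintype.card {w : InfinitePlace K // w ≠ w₀} * regulator K) ≤ X.card := by
  let ι := {w : InfinitePlace K // w ≠ w₀}
  let u : ι → (𝓞 K)ˣ := fun i => fundSystem K ((equivFinRank K).symm i)
  let val : J → ι → ℂ := fun e i => ((c e (u i) : ℂˣ) : ℂ)
  let θ : J → ι → ℝ := fun e i => arg (val e i) / (2 * Real.pi)
  have hval : ∀ e i, ‖val e i‖ = 1 := fun e i => hn e _
  let B : Set (logSpace K) := Set.Icc (0 : logSpace K) fun _ => R / 2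
  have hB : IsCompact B := isCompact_Icc
  have hcont : Continuous (PhiL K) := LinearMap.continuous_of_finiteDimensional _
  have hBi : IsCompact ((PhiL K) '' B) := hB.image hcont
  obtain ⟨x, T, hT1, hT2⟩ := many_points J ((PhiL K) '' B) hBi.isClosed.measurableSet
    hBi.isBounded θ
  rw [vol_image K R hR] at hT2
  by_cases hne : T = ∅
  · refine ⟨Classical.arbitrary J, ∅, by simp, ?_⟩
    rw [hne] at hT2
    simpa using hT2
  · obtain ⟨p0, hp0⟩ := Finset.nonempty_of_ne_empty hne
    -- the points of the box
    have hch : ∀ p : J × (ι → ℤ), ∃ z : logSpace K, p ∈ T → z ∈ B ∧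
        PhiL K z = fun i => x i + p.2 i + θ p.1 i := by
      intro p
      by_cases hp : p ∈ T
      · obtain ⟨z, hz1, hz2⟩ := hT1 p hp
        exact ⟨z, fun _ => ⟨hz1, hz2⟩⟩
      · exact ⟨0, fun h => absurd h hp⟩
    choose Z hZ using hch
    let F : J × (ι → ℤ) → J × (InfinitePlace K → ℝ) := fun p => (p.1, nuOf (Z p0 - Z p))
    have hinj : Set.InjOn F T := by
      intro p hp q hq h
      have h4 : p.1 = q.1 := congrArg (fun t : J × (InfinitePlace K → ℝ) => t.1) h
      have h2 : Z p0 - Z p = Z p0 - Z q :=
        nuOf_inj (congrArg (fun t : J × (InfinitePlace K → ℝ) => t.2) h)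
      have h3 : Z p = Z q := sub_right_injective h2
      have h7 : p.2 = q.2 := by
        ext i
        have a1 := congrFun (hZ p hp).2 i
        have a2 := congrFun (hZ q hq).2 i
        rw [h3] at a1
        rw [a1, h4] at a2
        have a3 : (p.2 i : ℝ) = q.2 i := by linarith
        exact_mod_cast a3
      exact Prod.ext h4 h7
    refine ⟨p0.1, T.image F, ?_, ?_⟩
    · intro P hP
      obtain ⟨p, hp, rfl⟩ := Finset.mem_image.mp hP
      refine ⟨nuOf_sum _, ?_, ?_⟩
      · refine nuOf_bound _ R (fun w => ?_) hR.le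
        obtain ⟨a1, a2⟩ := (hZ p hp).1
        obtain ⟨b1, b2⟩ := (hZ p0 hp0).1
        have a1 := a1 w
        have a2 := a2 w
        have b1 := b1 w
        have b2 := b2 w
        simp only [Pi.zero_apply] at a1 a2 b1 b2
        rw [Pi.sub_apply, abs_le]
        constructor <;> linarith
      · intro v
        have hc := compatG (c p.1 / c p0.1) (Z p0 - Z p) (fun t htt => ?_) (fun i => ?_) v
        · have h1 := congrArg (fun t : ℂˣ => (t : ℂ)) hc
          simp only [Units.val_mul, Units.val_one] at h1
          rw [← h1]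
          congr 1
          rw [show (F p).2 = nuOf (Z p0 - Z p) from rfl, nuOf_ph]
          rfl
        · -- torsion
          rw [MonoidHom.div_apply, ht _ t htt, ht _ t htt, div_one]
        · -- fundamental units
          obtain ⟨j, rfl⟩ := (equivFinRank K).symm.surjective i
          have h1 : PhiL K (Z p0 - Z p) j = (p0.2 j - p.2 j : ℝ) + (θ p0.1 j - θ p.1 j) := by
            rw [map_sub, (hZ p hp).2, (hZ p0 hp0).2, Pi.sub_apply]
            ring
          have h2 : PhiL K (Z p0 - Z p) j = (2 * Real.pi)⁻¹ *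
              ∑ w, (Z p0 - Z p) w * logEmbedding K (Additive.ofMul (u j)) w := by
            unfold PhiL
            rw [LinearMap.smul_apply, Matrix.toLin'_apply, Pi.smul_apply, smul_eq_mul]
            congr 1
            change ∑ w, logEmbedding K (Additive.ofMul (u j)) w * (Z p0 - Z p) w = _
            exact Finset.sum_congr rfl fun w _ => mul_comm _ _
          have h3 : (∑ w, (Z p0 - Z p) w * logEmbedding K (Additive.ofMul (u j)) w) =
              2 * Real.pi * ((p0.2 j - p.2 j : ℤ) : ℝ) + (arg (val p0.1 j) - arg (val p.1 j)) := by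
            rw [h2] at h1
            have hpi : (2 * Real.pi) ≠ 0 := by positivity
            have h4 : 2 * Real.pi * ((2 * Real.pi)⁻¹ *
              ∑ w, (Z p0 - Z p) w * logEmbedding K (Additive.ofMul (u j)) w) = 2 * Real.pi *
              ((p0.2 j - p.2 j : ℝ) + (θ p0.1 j - θ p.1 j)) := by rw [h1]
            rw [← mul_assoc, mul_inv_cancel₀ hpi, one_mul] at h4
            rw [h4]
            push_cast
            change _ = _
            have h5 : 2 * Real.pi * (θ p0.1 j - θ p.1 j) = arg (val p0.1 j) - arg (val p.1 j) := by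
              change 2 * Real.pi * (arg (val p0.1 j) / (2 * Real.pi) -
                arg (val p.1 j) / (2 * Real.pi)) = _
              field_simp
            rw [mul_add, h5]
          have h6 : ((phU (Z p0 - Z p) (fundSystem K ((equivFinRank K).symm j)) : ℂˣ) : ℂ) =
              val p0.1 j / val p.1 j := by
            change cexp (((∑ w, (Z p0 - Z p) w * logEmbedding K (Additive.ofMul (u j)) w : ℝ) : ℂ)
              * I) = _
            rw [h3]
            have h7 : (((2 * Real.pi * ((p0.2 j - p.2 j : ℤ) : ℝ) +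
                (arg (val p0.1 j) - arg (val p.1 j)) : ℝ) : ℂ) * I) =
                ((p0.2 j - p.2 j : ℤ) : ℂ) * (2 * Real.pi * I) +
                  (((arg (val p0.1 j) : ℝ) : ℂ) * I - ((arg (val p.1 j) : ℝ) : ℂ) * I) := by
              push_cast
              ring
            rw [h7, Complex.exp_add, Complex.exp_int_mul_two_pi_mul_I, one_mul, Complex.exp_sub,
              arg_eq (hval _ _), arg_eq (hval _ _)]
          ext
          rw [Units.val_mul, h6, Units.val_one]
          have h8 : (((c p.1 / c p0.1) (fundSystem K ((equivFinRank K).symm j)) : ℂˣ) : ℂ) =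
              val p.1 j / val p0.1 j := by
            rw [MonoidHom.div_apply, Units.val_div_eq_div_val]
          rw [h8]
          have n1 : val p.1 j ≠ 0 := Units.ne_zero _
          have n2 : val p0.1 j ≠ 0 := Units.ne_zero _
          field_simp
    · rw [Finset.card_image_of_injOn hinj]
      exact hT2

end

end Pool.Agent.H26.MV
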