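import Pool.Agent.H26.MV.Cnt
import Pool.Agent.H26.MV.FreqG

/-!
# Hecke characters with given finite part and infinity type
-/

set_option autoImplicit false

open NumberField NumberField.InfinitePlace NumberField.Units
  NumberField.Units.dirichletUnitTheorem
open scoped nonZeroDivisors

namespace Pool.Agent.H26.MV

open Pool.Agent.H23.LB Pool.Agent.H28.RC Pool.Agent.H25.HK

section

variable {K : Type} [Field K] [NumberField K]

/-- a unitary multiplicative function -/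
structure UM (ω : K → ℂ) : Prop where
  one : ω 1 = 1
  mul : ∀ x y, x ≠ 0 → y ≠ 0 → ω (x * y) = ω x * ω y
  norm : ∀ x, x ≠ 0 → ‖ω x‖ = 1

/-- the character of the elements prime to `f` -/
noncomputable def gG (f : Ideal (𝓞 K)) (hf : f ≠ ⊥) (η : (𝓞 K ⧸ f)ˣ →* ℂˣ)
    (ω : K → ℂ) (hω : UM ω) : Mf f →* Circle where
  toFun a := ⟨(η (resU f a) : ℂˣ) * ω (a.1 : K), by
    change _ ∈ Metric.sphere (0 : ℂ) 1
    rw [mem_sphere_zero_iff_norm, norm_mul, norm_EE f hf,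
      hω.norm _ (RingOfIntegers.coe_ne_zero_iff.mpr a.2.1), one_mul]⟩
  map_one' := by
    apply Subtype.ext
    change ((η (resU f 1) : ℂˣ) : ℂ) * ω (((1 : Mf f) : 𝓞 K) : K) = 1
    have h1 : (((1 : Mf f) : 𝓞 K) : K) = 1 := map_one (algebraMap (𝓞 K) K)
    rw [map_one, map_one, Units.val_one, one_mul, h1, hω.one]
  map_mul' a b := by
    apply Subtype.ext
    change ((η (resU f (a * b)) : ℂˣ) : ℂ) * ω (((a * b : Mf f) : 𝓞 K) : K) =
      (((η (resU f a) : ℂˣ) : ℂ) * ω (a.1 : K)) * (((η (resU f b) : ℂˣ) : ℂ) * ω (b.1 : K))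
    have h1 : (((a * b : Mf f) : 𝓞 K) : K) = (a.1 : K) * (b.1 : K) :=
      map_mul (algebraMap (𝓞 K) K) a.1 b.1
    have ha : (a.1 : K) ≠ 0 := RingOfIntegers.coe_ne_zero_iff.mpr a.2.1
    have hb : (b.1 : K) ≠ 0 := RingOfIntegers.coe_ne_zero_iff.mpr b.2.1
    rw [map_mul, map_mul, Units.val_mul, h1, hω.mul _ _ ha hb]
    ring

/-- the extension to the ideals -/
theorem ext_gen (f : Ideal (𝓞 K)) (hf : f ≠ ⊥) (η : (𝓞 K ⧸ f)ˣ →* ℂˣ)
    (ω : K → ℂ) (hω : UM ω)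
    (h : ∀ u : (𝓞 K)ˣ, ((η (mkU f u) : ℂˣ) : ℂ) * ω (u : K) = 1) :
    ∃ χ : (FractionalIdeal (𝓞 K)⁰ K)ˣ →* Circle, ∀ a : Mf f,
      ((χ (FractionalIdeal.mk0 K (spM f a)) : Circle) : ℂ) =
        ((η (resU f a) : ℂˣ) : ℂ) * ω (a.1 : K) := by
  have key : ∀ a b : Mf f, ((FractionalIdeal.mk0 K).comp (spM f)) a =
      ((FractionalIdeal.mk0 K).comp (spM f)) b → gG f hf η ω hω a = gG f hf η ω hω b := by
    intro a b hab
    have h1 : (FractionalIdeal.mk0 K (spM f a) : (FractionalIdeal (𝓞 K)⁰ K)ˣ) =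
        FractionalIdeal.mk0 K (spM f b) := hab
    have h2 := congrArg (fun t : (FractionalIdeal (𝓞 K)⁰ K)ˣ =>
      (t : FractionalIdeal (𝓞 K)⁰ K)) h1
    simp only [FractionalIdeal.coe_mk0] at h2
    have h3 : Ideal.span {a.1} = Ideal.span {b.1} := FractionalIdeal.coeIdeal_injective h2
    rw [Ideal.span_singleton_eq_span_singleton] at h3
    obtain ⟨u, hu⟩ := h3
    apply Subtype.ext
    change ((η (resU f a) : ℂˣ) : ℂ) * ω (a.1 : K) =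
      ((η (resU f b) : ℂˣ) : ℂ) * ω (b.1 : K)
    have h4 : resU f b = resU f a * mkU f u := by
      apply Units.ext
      rw [Units.val_mul, resU_val, resU_val, ← hu, map_mul]
      rfl
    have h5 : (b.1 : K) = (a.1 : K) * (u : K) := by
      rw [← hu]
      exact map_mul (algebraMap (𝓞 K) K) _ _
    have ha : (a.1 : K) ≠ 0 := RingOfIntegers.coe_ne_zero_iff.mpr a.2.1
    have hu0 : (u : K) ≠ 0 := RingOfIntegers.coe_ne_zero_iff.mpr u.ne_zero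
    rw [h4, h5, map_mul, Units.val_mul, hω.mul _ _ ha hu0]
    have h6 := h u
    linear_combination (-(((η (resU f a) : ℂˣ) : ℂ) * ω (a.1 : K))) * h6
  obtain ⟨χ, hχ⟩ := extend_monoid (Mf f) (FractionalIdeal (𝓞 K)⁰ K)ˣ
    ((FractionalIdeal.mk0 K).comp (spM f)) (gG f hf η ω hω) key
  exact ⟨χ, fun a => congrArg Subtype.val (hχ a)⟩

theorem psi_span (f : Ideal (𝓞 K)) (χ : (FractionalIdeal (𝓞 K)⁰ K)ˣ →* Circle)
    (κ : ClassGroup (𝓞 K) →* ℂˣ) (a : Mf f) :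
    psiOf f χ κ (Ideal.span {a.1}) = ((χ (FractionalIdeal.mk0 K (spM f a)) : Circle) : ℂ) := by
  rw [psiOf_eq f χ κ _ (span_ne a.1 a.2.1) a.2.2]
  have h1 : ClassGroup.mk0 (⟨Ideal.span {a.1}, span_ne a.1 a.2.1⟩ : (Ideal (𝓞 K))⁰) = 1 := by
    rw [ClassGroup.mk0_eq_one_iff]
    exact ⟨a.1, rfl⟩
  rw [h1, map_one, Units.val_one, mul_one]
  rfl

/-- the properties of the character -/
theorem psi_props (f : Ideal (𝓞 K)) (η : (𝓞 K ⧸ f)ˣ →* ℂˣ)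
    (ω : K → ℂ) (χ : (FractionalIdeal (𝓞 K)⁰ K)ˣ →* Circle)
    (hχ : ∀ a : Mf f, ((χ (FractionalIdeal.mk0 K (spM f a)) : Circle) : ℂ) =
        ((η (resU f a) : ℂˣ) : ℂ) * ω (a.1 : K))
    (κ : ClassGroup (𝓞 K) →* ℂˣ) :
    psiOf f χ κ ⊤ = 1 ∧ (∀ I J, psiOf f χ κ (I * J) = psiOf f χ κ I * psiOf f χ κ J) ∧
    psiOf f χ κ ⊥ = 0 ∧ (∀ I, I ≠ ⊥ → I ⊔ f = ⊤ → ‖psiOf f χ κ I‖ = 1) ∧
    (∀ I, I ⊔ f ≠ ⊤ → psiOf f χ κ I = 0) ∧
    ∀ a : 𝓞 K, a ≠ 0 → a - 1 ∈ f → psiOf f χ κ (Ideal.span {a}) = ω (a : K) := by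
  refine ⟨?_, psiOf_mul f χ κ, psiOf_zero f χ κ ⊥
    fun h => (mem_nonZeroDivisors_iff_ne_zero.mp h.1) rfl, ?_, fun I hI =>
    psiOf_zero f χ κ I fun h => hI h.2, ?_⟩
  · have h1 : (⊤ : Ideal (𝓞 K)) ∈ (Ideal (𝓞 K))⁰ := by
      rw [mem_nonZeroDivisors_iff_ne_zero]
      exact top_ne_bot
    rw [psiOf_eq f χ κ ⊤ h1 (top_sup_eq _)]
    have h2 : (⟨⊤, h1⟩ : (Ideal (𝓞 K))⁰) = 1 := Subtype.ext Ideal.one_eq_top.symm
    rw [h2, map_one, map_one, map_one, map_one, Units.val_one, Circle.coe_one, mul_one]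
  · intro I hI hIf
    rw [psiOf_eq f χ κ I (mem_nonZeroDivisors_iff_ne_zero.mpr hI) hIf, norm_mul,
      norm_dual, mul_one]
    exact Circle.norm_coe _
  · intro a ha haf
    have h1 : Ideal.Quotient.mk f a = 1 := by
      rw [← map_one (Ideal.Quotient.mk f), Ideal.Quotient.eq]
      exact haf
    have h2 : Ideal.span {a} ⊔ f = ⊤ := sup_of_isUnit f a (by rw [h1]; exact isUnit_one)
    have h3 := psi_span f χ κ ⟨a, ha, h2⟩
    have h4 : resU f ⟨a, ha, h2⟩ = 1 := by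
      apply Units.ext
      rw [resU_val, Units.val_one]
      exact h1
    rw [hχ, h4, map_one, Units.val_one, one_mul] at h3
    exact h3

/-- distinct data give distinct functions -/
theorem psi_inj (f : Ideal (𝓞 K)) (hf : f ≠ ⊥) (ω : K → ℂ)
    (hω : ∀ x, x ≠ 0 → ω x ≠ 0)
    {η η' : (𝓞 K ⧸ f)ˣ →* ℂˣ} {χ χ' : (FractionalIdeal (𝓞 K)⁰ K)ˣ →* Circle}
    (hχ : ∀ a : Mf f, ((χ (FractionalIdeal.mk0 K (spM f a)) : Circle) : ℂ) =
        ((η (resU f a) : ℂˣ) : ℂ) * ω (a.1 : K))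
    (hχ' : ∀ a : Mf f, ((χ' (FractionalIdeal.mk0 K (spM f a)) : Circle) : ℂ) =
        ((η' (resU f a) : ℂˣ) : ℂ) * ω (a.1 : K))
    (hχχ : η = η' → χ = χ') {κ κ' : ClassGroup (𝓞 K) →* ℂˣ}
    (h : psiOf f χ κ = psiOf f χ' κ') : η = η' ∧ κ = κ' := by
  have hη : η = η' := by
    refine MonoidHom.ext fun g => ?_
    obtain ⟨a, rfl⟩ := resU_surj f hf g
    have h1 := congrFun h (Ideal.span {a.1})
    rw [psi_span, psi_span, hχ, hχ'] at h1
    exact Units.ext (mul_right_cancel₀ (hω _ (RingOfIntegers.coe_ne_zero_iff.mpr a.2.1)) h1)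
  refine ⟨hη, MonoidHom.ext fun C => ?_⟩
  obtain ⟨I, hI1, hI2⟩ := class_prime f hf C
  have h1 := congrFun h (I : Ideal (𝓞 K))
  rw [psiOf_eq f χ κ I I.2 hI2, psiOf_eq f χ' κ' I I.2 hI2, hχχ hη] at h1
  have h2 := mul_left_cancel₀ (Circle.coe_ne_zero _) h1
  rw [← hI1]
  exact Units.ext h2

end

end Pool.Agent.H26.MV
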