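import Pool.Agent.H26.MV.Nu
import Pool.Agent.H26.MV.Blich
import Pool.Agent.H26.MV.Tors

/-!
# Frequencies which are compatible with the units
-/

set_option autoImplicit false

open NumberField NumberField.InfinitePlace NumberField.Units
  NumberField.Units.dirichletUnitTheorem Complex MeasureTheory

namespace Pool.Agent.H26.MV

open Pool.Agent.H23.LB

section

variable {K : Type} [Field K] [NumberField K]

/-- reduction of units -/
noncomputable def mkU (f : Ideal (𝓞 K)) : (𝓞 K)ˣ →* (𝓞 K ⧸ f)ˣ :=
  Units.map (Ideal.Quotient.mk f : 𝓞 K →* 𝓞 K ⧸ f)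

open scoped Classical in
/-- the phase of units as a homomorphism -/
noncomputable def phU (z : logSpace K) : (𝓞 K)ˣ →* ℂˣ where
  toFun u := Units.mk0 (cexp ((∑ w, z w * logEmbedding K (Additive.ofMul u) w : ℝ) * I))
    (Complex.exp_ne_zero _)
  map_one' := by
    ext
    simp
  map_mul' u v := by
    ext
    simp only [Units.val_mk0, Units.val_mul]
    rw [← Complex.exp_add, ← add_mul, ← Complex.ofReal_add, ← Finset.sum_add_distrib]
    congr 3
    refine Finset.sum_congr rfl fun w _ => ?_
    rw [ofMul_mul, map_add, Pi.add_apply]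
    ring

theorem compat (f : Ideal (𝓞 K)) (η : (𝓞 K ⧸ f)ˣ →* ℂˣ) (z : logSpace K)
    (h1 : ∀ u ∈ torsion K, η (mkU f u) = 1)
    (h2 : ∀ i, η (mkU f (fundSystem K i)) * phU z (fundSystem K i) = 1) (u : (𝓞 K)ˣ) :
    η (mkU f u) * phU z u = 1 := by
  classical
  let H : (𝓞 K)ˣ →* ℂˣ := (η.comp (mkU f)) * phU z
  have h3 : Subgroup.closure (Set.range (fundSystem K)) ⊔ torsion K ≤ H.ker := by
    refine sup_le ((Subgroup.closure_le _).mpr ?_) ?_
    · rintro _ ⟨i, rfl⟩
      exact h2 i
    · intro t ht
      rw [MonoidHom.mem_ker]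
      change η (mkU f t) * phU z t = 1
      rw [h1 t ht, one_mul]
      ext
      have h4 : logEmbedding K (Additive.ofMul t) = 0 := logEmbedding_eq_zero_iff.mpr ht
      change cexp (((∑ w, z w * logEmbedding K (Additive.ofMul t) w : ℝ) : ℂ) * I) = 1
      rw [h4]
      simp
  rw [closure_fundSystem_sup_torsion_eq_top] at h3
  exact h3 (Subgroup.mem_top u)

variable (K)

open scoped Classical in
/-- the matrix of the logarithms of the fundamental units -/
noncomputable def mA : Matrix {w : InfinitePlace K // w ≠ w₀} {w : InfinitePlace K // w ≠ w₀} ℝ :=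
  Matrix.of fun i => logEmbedding K (Additive.ofMul (fundSystem K ((equivFinRank K).symm i)))

open scoped Classical in
/-- the linear map -/
noncomputable def PhiL : logSpace K →ₗ[ℝ] logSpace K :=
  (2 * Real.pi)⁻¹ • Matrix.toLin' (mA K)

open scoped Classical in
theorem det_PhiL : |LinearMap.det (PhiL K)| =
    (2 * Real.pi)⁻¹ ^ Fintype.card {w : InfinitePlace K // w ≠ w₀} * regulator K := by
  unfold PhiL
  rw [LinearMap.det_smul, LinearMap.det_toLin', abs_mul, regulator_eq_det']
  have h1 : Module.finrank ℝ (logSpace K) = Fintype.card {w : InfinitePlace K // w ≠ w₀} :=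
    Module.finrank_fintype_fun_eq_card ℝ
  rw [h1, abs_of_nonneg (by positivity)]
  rfl

open scoped Classical in
theorem vol_image (R : ℝ) (hR : 0 < R) :
    (volume ((PhiL K) '' Set.Icc (0 : logSpace K) fun _ => R / 2)).toReal =
      (R / (4 * Real.pi)) ^ Fintype.card {w : InfinitePlace K // w ≠ w₀} * regulator K := by
  rw [Measure.addHaar_image_linearMap, ENNReal.toReal_mul, ENNReal.toReal_ofReal (abs_nonneg _),
    det_PhiL, Real.volume_Icc_pi_toReal]
  · simp only [Pi.zero_apply, sub_zero, Finset.prod_const, Finset.card_univ]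
    rw [mul_right_comm, ← mul_pow]
    congr 2
    field_simp
    ring
  · intro i
    simp only [Pi.zero_apply]
    linarith

end

end Pool.Agent.H26.MV
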