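import Pool.Agent.H23.LB.Defs

/-!
# Frequencies from linear forms on the logarithmic space
-/

set_option autoImplicit false

open NumberField NumberField.InfinitePlace NumberField.Units
  NumberField.Units.dirichletUnitTheorem Complex

namespace Pool.Agent.H26.MV

open Pool.Agent.H23.LB

variable {K : Type} [Field K] [NumberField K]

open scoped Classical in
/-- the mean of a linear form -/
noncomputable def cOf (z : logSpace K) : ℝ :=
  -(∑ w : {w : InfinitePlace K // w ≠ w₀}, (w.1.mult : ℝ) * z w) / Module.finrank ℚ K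

open scoped Classical in
/-- the frequencies of a linear form on the logarithmic space -/
noncomputable def nuOf (z : logSpace K) (v : InfinitePlace K) : ℝ :=
  cOf z + if h : v ≠ w₀ then z ⟨v, h⟩ else 0

open scoped Classical in
theorem sum_dite (g : InfinitePlace K → ℝ) (z : logSpace K) :
    ∑ v : InfinitePlace K, g v * (if h : v ≠ w₀ then z ⟨v, h⟩ else 0) =
      ∑ w : {w : InfinitePlace K // w ≠ w₀}, g w.1 * z w := by
  rw [Fintype.sum_eq_add_sum_subtype_ne _ (w₀ : InfinitePlace K)]
  simp only [ne_eq, not_true_eq_false, ↓reduceDIte, mul_zero, zero_add]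
  refine Finset.sum_congr rfl fun w _ => ?_
  rw [dif_pos w.2]

theorem finrank_pos' : (0 : ℝ) < Module.finrank ℚ K := by
  exact_mod_cast Module.finrank_pos

theorem sum_mult' : ∑ v : InfinitePlace K, (v.mult : ℝ) = Module.finrank ℚ K := by
  rw [← Nat.cast_sum, sum_mult_eq]

theorem nuOf_sum (z : logSpace K) : ∑ v : InfinitePlace K, (v.mult : ℝ) * nuOf z v = 0 := by
  classical
  unfold nuOf
  simp only [mul_add]
  rw [Finset.sum_add_distrib, ← Finset.sum_mul, sum_mult', sum_dite (fun v => (v.mult : ℝ))]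
  unfold cOf
  field_simp [(finrank_pos' (K := K)).ne']
  ring

theorem cOf_bound (z : logSpace K) (r : ℝ) (hz : ∀ w, |z w| ≤ r) (hr : 0 ≤ r) : |cOf z| ≤ r := by
  classical
  unfold cOf
  rw [abs_div, abs_neg, abs_of_pos (finrank_pos' (K := K)), div_le_iff₀ finrank_pos']
  refine (Finset.abs_sum_le_sum_abs _ _).trans ?_
  have h1 : ∑ w : {w : InfinitePlace K // w ≠ w₀}, |(w.1.mult : ℝ) * z w| ≤
      ∑ w : {w : InfinitePlace K // w ≠ w₀}, (w.1.mult : ℝ) * r := by
    refine Finset.sum_le_sum fun w _ => ?_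
    rw [abs_mul, abs_of_nonneg (Nat.cast_nonneg _)]
    exact mul_le_mul_of_nonneg_left (hz w) (Nat.cast_nonneg _)
  refine h1.trans ?_
  rw [← Finset.sum_mul, mul_comm]
  refine mul_le_mul_of_nonneg_left ?_ hr
  rw [← sum_mult' (K := K), Fintype.sum_eq_add_sum_subtype_ne _ (w₀ : InfinitePlace K)]
  have : (0 : ℝ) ≤ ((w₀ : InfinitePlace K).mult : ℝ) := Nat.cast_nonneg _
  linarith

theorem nuOf_bound (z : logSpace K) (R : ℝ) (hz : ∀ w, |z w| ≤ R / 2) (hR : 0 ≤ R)
    (v : InfinitePlace K) : |nuOf z v| ≤ R := by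
  classical
  unfold nuOf
  have h1 := cOf_bound z (R / 2) hz (by linarith)
  have h2 : |if h : v ≠ w₀ then z ⟨v, h⟩ else 0| ≤ R / 2 := by
    split_ifs with h
    · exact hz _
    · rw [abs_zero]; linarith
  calc _ ≤ _ := abs_add_le _ _
    _ ≤ R / 2 + R / 2 := add_le_add h1 h2
    _ = R := by ring

theorem nuOf_inj : Function.Injective (nuOf (K := K)) := by
  classical
  intro z z' h
  have h0 := congrFun h (w₀ : InfinitePlace K)
  unfold nuOf at h0
  simp only [ne_eq, not_true_eq_false, ↓reduceDIte, add_zero] at h0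
  ext w
  have h1 := congrFun h w.1
  unfold nuOf at h1
  rw [h0, dif_pos w.2, dif_pos w.2] at h1
  exact add_left_cancel h1

open scoped Classical in
/-- the phase of a unit -/
theorem nuOf_ph (z : logSpace K) (u : (𝓞 K)ˣ) :
    ph (nuOf z) (u : K) =
      cexp ((∑ w, z w * logEmbedding K (Additive.ofMul u) w : ℝ) * I) := by
  unfold ph
  congr 3
  unfold nuOf
  have h1 : ∀ v : InfinitePlace K,
      (v.mult : ℝ) * (cOf z + if h : v ≠ w₀ then z ⟨v, h⟩ else 0) * Real.log (v (u : K)) =
      cOf z * ((v.mult : ℝ) * Real.log (v (u : K))) +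
        ((v.mult : ℝ) * Real.log (v (u : K))) * (if h : v ≠ w₀ then z ⟨v, h⟩ else 0) := by
    intro v
    ring
  rw [Finset.sum_congr rfl fun v _ => h1 v, Finset.sum_add_distrib, ← Finset.mul_sum,
    sum_mult_mul_log, mul_zero, zero_add,
    sum_dite (fun v => (v.mult : ℝ) * Real.log (v (u : K)))]
  refine Finset.sum_congr rfl fun w _ => ?_
  rw [logEmbedding_component]
  ring

theorem ph_mul (ν : InfinitePlace K → ℝ) (x y : K) (hx : x ≠ 0) (hy : y ≠ 0) :
    ph ν (x * y) = ph ν x * ph ν y := by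
  unfold ph
  rw [← Complex.exp_add]
  congr 1
  rw [← add_mul, ← Complex.ofReal_add, ← Finset.sum_add_distrib]
  congr 3
  ext v
  rw [map_mul, Real.log_mul ((map_ne_zero v).mpr hx) ((map_ne_zero v).mpr hy)]
  ring

theorem ph_one (ν : InfinitePlace K → ℝ) : ph ν (1 : K) = 1 := by
  unfold ph
  simp

theorem ph_norm (ν : InfinitePlace K → ℝ) (x : K) : ‖ph ν x‖ = 1 := by
  unfold ph
  exact Complex.norm_exp_ofReal_mul_I _

theorem ph_ne_zero (ν : InfinitePlace K → ℝ) (x : K) : ph ν x ≠ 0 := by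
  unfold ph
  exact Complex.exp_ne_zero _

end Pool.Agent.H26.MV
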